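import Pool.Agent.H75.QA.Ws
import Pool.Agent.H70.AC.FL

/-!
# Quantum algorithms with access to constant-depth circuits: planting rarely changes a gate (KEY)
-/

namespace Pool.Agent.H75.QA

open Finset Pool.Agent.H68.AC

theorem fd_Rof {V : Type} {d : ℕ} (S : Fin d → V → Bool) (y : V → Bool) (j : ℕ) (v : V) (b : Bool)
    (h : fd (Rof S y) j v = some b) : y v = b := by
  induction j with
  | zero => simp [fd] at h
  | succ j ih =>
    simp only [fd, mrg] at h
    cases hv : fd (Rof S y) j v with
    | some b' =>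
      rw [hv] at h
      simp only at h
      exact ih (hv.trans h)
    | none =>
      rw [hv] at h
      simp only at h
      by_cases hj : j < d
      · simp only [hj, dite_true, Rof] at h
        split_ifs at h
        exact Option.some.inj h
      · simp [hj] at h

theorem ext_Rof {V : Type} [DecidableEq V] {d : ℕ} (P : Finset V) (S : Fin d → V → Bool)
    (y y' : V → Bool) (hy : ∀ v, v ∉ P → y' v = y v) (j : ℕ) : Ext (rho P (Rof S y) j) y' := by
  intro v b h
  simp only [rho, mask] at h
  split_ifs at h with hP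
  rw [hy v hP]
  exact fd_Rof S y j v b h

theorem tri (hFLA : T_FLA) (hLOCW : T_LOCW) {k r s d : ℕ} {A : Type} [DecidableEq A]
    [Fintype A] (C : Ckt (VV k r A) s d) (w : ℕ) (e : Fin k → Fin r → Fin k) (β h : ℕ)
    (hE : Expd e β h) (hh : 1 ≤ h) (x : Fin k → A) (S : Fin d → VV k r A → Bool)
    (y : VV k r A → Bool) (g : Fin s) (hS : Shal C w e x S y)
    (hL : ∀ H : Finset (Fin k), β < (VS e H).card → H.card ≤ 2 * h → ∀ g,
      ¬ EA C w (K e x H) (K e x H) S y g) (hne : C.val (pl (K e x univ) y) g ≠ C.val y g) :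
    ∃ H : Finset (Fin k), H ≠ ∅ ∧ H.card ≤ h ∧ EA C w (K e x H) (K e x H) S y g := by
  set P := K e x univ with hP
  set R := Rof S y with hR
  have hpl : ∀ v, v ∉ P → pl P y v = y v := fun v hv => by simp [pl, hv]
  have h1 : (C.T P R g).eval y = C.val y g :=
    cor_t _ s d C P R g y (ext_Rof P S y y (fun _ _ => rfl) _)
  have h2 : (C.T P R g).eval (pl P y) = C.val (pl P y) g :=
    cor_t _ s d C P R g (pl P y) (ext_Rof P S y (pl P y) hpl _)
  obtain ⟨ψ, h3, h4⟩ := exists_path (C.T P R g) (pl P y)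
  have h5 : ∀ u ∈ ψ, u.1 ∉ P → y u.1 = u.2 := fun u hu hv => by rw [← hpl u.1 hv, h4 u hu]
  have halive : Alive P S y (C.lev g) ψ := fun u hu hv => Or.inl (h5 u hu hv)
  have h6 := hFLA k r s d A C w e x S y β h hE hh hS hL g ψ _ h3 halive
  set H := univ.filter (fun j => pos e x j ∈ ψ.map Prod.fst) with hH
  have h7 : H.card ≤ h := Pool.Agent.H70.AC.expd_small hE H h6
  have hmem : ∀ u ∈ ψ, u.1 ∈ P → u.1 ∈ K e x H := by
    intro u hu hv
    obtain ⟨j, _, hj⟩ := Finset.mem_image.1 hv
    refine Finset.mem_image.2 ⟨j, ?_, hj⟩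
    rw [hH, Finset.mem_filter]
    refine ⟨mem_univ _, ?_⟩
    rw [hj]
    exact List.mem_map_of_mem hu
  refine ⟨H, ?_, h7, hS H g, ψ, (C.T P R g).eval (pl P y), ?_, ?_, ?_⟩
  · intro h0
    apply hne
    have h8 : ∀ u ∈ ψ, y u.1 = u.2 := by
      intro u hu
      refine h5 u hu (fun hv => ?_)
      have := hmem u hu hv
      rw [h0] at this
      simp [K] at this
    rw [← h1, ← h2]
    exact (eval_of_path h3 y h8).symm
  · refine (hLOCW _ s d C (K e x H) P R g (Finset.image_subset_image (Finset.subset_univ _))).1 ψ _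
      h3 ?_
    intro u hu hv
    exact hv.2 (hmem u hu hv.1)
  · intro u hu hv
    exact Or.inl (h5 u hu (fun hP' => hv (hmem u hu hP')))
  · intro v hv
    obtain ⟨j, hj, rfl⟩ := Finset.mem_image.1 hv
    exact (Finset.mem_filter.1 hj).2

theorem key_t (hFLA : T_FLA) (hEAB : T_EAB) (hLOCW : T_LOCW) : T_KEY := by
  intro k r s d A _ _ C w e q β h γ hE hG hh hw hq hq1 hqw hA y g
  classical
  have hw1 : (1 : ℝ) ≤ w := by exact_mod_cast hw
  set N : ℝ := (Fintype.card A : ℝ) with hN
  have hN1 : 1 ≤ N := by rw [hN]; exact_mod_cast hA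
  have hN0 : 0 < N := by linarith
  have hqd : 0 < q ^ d := by positivity
  have hqd1 : q ^ d ≤ 1 := pow_le_one₀ hq.le hq1
  set B : ℝ := 2 * w / q ^ d with hB
  have hB1 : 1 ≤ B := by
    rw [hB, le_div_iff₀ hqd]
    linarith
  have hVS : ∀ H : Finset (Fin k), (VS e H).card ≤ k := fun H => by
    have := Finset.card_le_univ (VS e H)
    simpa using this
  -- the bound of EAB
  have hb : ∀ (H : Finset (Fin k)) (g' : Fin s), ∑ x : Fin k → A,
      ∑ S : Fin d → VV k r A → Bool, WS q S * ind (EA C w (K e x H) (K e x H) S y g') ≤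
      8 * (B ^ H.card * (N ^ k / N ^ (VS e H).card)) := by
    intro H g'
    have h1 := hEAB k r s d A C w e H q y g' hw hq hq1 hqw
    have h2 : N ^ (k - (VS e H).card) = N ^ k / N ^ (VS e H).card := pow_sub₀ N hN0.ne' (hVS H)
    have h3 : q ^ (d * H.card) = (q ^ d) ^ H.card := pow_mul q d H.card
    rw [h3] at h1
    have h4 : 0 < (q ^ d) ^ H.card := by positivity
    rw [mul_comm, ← le_div_iff₀ h4] at h1
    refine h1.trans (le_of_eq ?_)
    rw [hB, div_pow, ← h2, hN]
    field_simp
  set L := univ.filter (fun H : Finset (Fin k) => β < (VS e H).card ∧ H.card ≤ 2 * h) with hLdef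
  set Sm := univ.filter (fun H : Finset (Fin k) => H ≠ ∅ ∧ H.card ≤ h) with hSm
  -- pointwise
  have hpt : ∀ x : Fin k → A, ind (C.val (pl (K e x univ) y) g ≠ C.val y g) ≤
      ∑ S : Fin d → VV k r A → Bool, WS q S * (ind (¬ Shal C w e x S y) +
        ∑ H ∈ L, ∑ g' : Fin s, ind (EA C w (K e x H) (K e x H) S y g') +
        ∑ H ∈ Sm, ind (EA C w (K e x H) (K e x H) S y g)) := by
    intro x
    have h0 : ind (C.val (pl (K e x univ) y) g ≠ C.val y g) =
        ∑ S : Fin d → VV k r A → Bool, WS q S * ind (C.val (pl (K e x univ) y) g ≠ C.val y g) := by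
      rw [← Finset.sum_mul, sum_WS, one_mul]
    rw [h0]
    refine Finset.sum_le_sum (fun S _ => mul_le_mul_of_nonneg_left ?_ (WS_nonneg hq.le hq1 S))
    have hL0 : 0 ≤ ∑ H ∈ L, ∑ g' : Fin s, ind (EA C w (K e x H) (K e x H) S y g') :=
      Finset.sum_nonneg (fun _ _ => Finset.sum_nonneg (fun _ _ => ind_nonneg _))
    have hS0 : 0 ≤ ∑ H ∈ Sm, ind (EA C w (K e x H) (K e x H) S y g) :=
      Finset.sum_nonneg (fun _ _ => ind_nonneg _)
    by_cases hne : C.val (pl (K e x univ) y) g ≠ C.val y g
    · rw [ind_true hne]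
      by_cases hS : Shal C w e x S y
      · by_cases hL : ∀ H : Finset (Fin k), β < (VS e H).card → H.card ≤ 2 * h → ∀ g,
            ¬ EA C w (K e x H) (K e x H) S y g
        · obtain ⟨H, h1, h2, h3⟩ := tri hFLA hLOCW C w e β h hE hh x S y g hS hL hne
          have h4 : (1 : ℝ) ≤ ∑ H ∈ Sm, ind (EA C w (K e x H) (K e x H) S y g) := by
            rw [← ind_true h3]
            exact Finset.single_le_sum (f := fun H => ind (EA C w (K e x H) (K e x H) S y g))
              (fun _ _ => ind_nonneg _) (by rw [hSm, Finset.mem_filter]; exact ⟨mem_univ _, h1, h2⟩)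
          have h5 := ind_nonneg (¬ Shal C w e x S y)
          linarith
        · push Not at hL
          obtain ⟨H, h1, h2, g', h3⟩ := hL
          have h4 : (1 : ℝ) ≤ ∑ H ∈ L, ∑ g' : Fin s, ind (EA C w (K e x H) (K e x H) S y g') := by
            rw [← ind_true h3]
            refine le_trans ?_ (Finset.single_le_sum
              (f := fun H => ∑ g' : Fin s, ind (EA C w (K e x H) (K e x H) S y g'))
              (fun _ _ => Finset.sum_nonneg (fun _ _ => ind_nonneg _))
              (show H ∈ L by rw [hLdef, Finset.mem_filter]; exact ⟨mem_univ _, h1, h2⟩))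
            exact Finset.single_le_sum (f := fun g' => ind (EA C w (K e x H) (K e x H) S y g'))
              (fun _ _ => ind_nonneg _) (mem_univ g')
          have h5 := ind_nonneg (¬ Shal C w e x S y)
          linarith
      · rw [ind_true hS]
        linarith
    · rw [ind_false hne]
      have h5 := ind_nonneg (¬ Shal C w e x S y)
      linarith
  -- the large sets
  have hlarge : ∑ x : Fin k → A, ∑ S : Fin d → VV k r A → Bool, WS q S *
      (∑ H ∈ L, ∑ g' : Fin s, ind (EA C w (K e x H) (K e x H) S y g')) ≤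
      N ^ k * (8 * (2 ^ k * (s * (B ^ (2 * h) / N ^ (β + 1))))) := by
    have h1 : ∑ x : Fin k → A, ∑ S : Fin d → VV k r A → Bool, WS q S *
        (∑ H ∈ L, ∑ g' : Fin s, ind (EA C w (K e x H) (K e x H) S y g')) =
        ∑ H ∈ L, ∑ g' : Fin s, ∑ x : Fin k → A, ∑ S : Fin d → VV k r A → Bool,
          WS q S * ind (EA C w (K e x H) (K e x H) S y g') := by
      have h2 : ∀ x : Fin k → A, ∑ S : Fin d → VV k r A → Bool, WS q S *
          (∑ H ∈ L, ∑ g' : Fin s, ind (EA C w (K e x H) (K e x H) S y g')) =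
          ∑ H ∈ L, ∑ g' : Fin s, ∑ S : Fin d → VV k r A → Bool,
          WS q S * ind (EA C w (K e x H) (K e x H) S y g') := by
        intro x
        simp only [Finset.mul_sum]
        rw [Finset.sum_comm]
        refine Finset.sum_congr rfl (fun H _ => ?_)
        rw [Finset.sum_comm]
      rw [Finset.sum_congr rfl (fun x _ => h2 x), Finset.sum_comm]
      refine Finset.sum_congr rfl (fun H _ => ?_)
      rw [Finset.sum_comm]
    rw [h1]
    calc ∑ H ∈ L, ∑ g' : Fin s, ∑ x : Fin k → A, ∑ S : Fin d → VV k r A → Bool,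
          WS q S * ind (EA C w (K e x H) (K e x H) S y g')
        ≤ ∑ H ∈ L, ∑ _g' : Fin s, 8 * (B ^ (2 * h) * (N ^ k / N ^ (β + 1))) := by
          refine Finset.sum_le_sum (fun H hH => Finset.sum_le_sum (fun g' _ => ?_))
          rw [hLdef, Finset.mem_filter] at hH
          refine (hb H g').trans ?_
          refine mul_le_mul_of_nonneg_left ?_ (by norm_num)
          refine mul_le_mul (pow_le_pow_right₀ hB1 hH.2.2) ?_ (by positivity) (by positivity)
          exact div_le_div_of_nonneg_left (by positivity) (by positivity)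
            (pow_le_pow_right₀ hN1 hH.2.1)
      _ = L.card * (s * (8 * (B ^ (2 * h) * (N ^ k / N ^ (β + 1))))) := by
          simp only [Finset.sum_const, Finset.card_univ, Fintype.card_fin, nsmul_eq_mul]
      _ ≤ 2 ^ k * (s * (8 * (B ^ (2 * h) * (N ^ k / N ^ (β + 1))))) := by
          refine mul_le_mul_of_nonneg_right ?_ (by positivity)
          have h3 : L.card ≤ 2 ^ k := by
            refine (Finset.card_le_univ L).trans ?_
            simp
          exact_mod_cast h3
      _ = N ^ k * (8 * (2 ^ k * (s * (B ^ (2 * h) / N ^ (β + 1))))) := by ring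
  -- the small sets
  have hsmall : ∑ x : Fin k → A, ∑ S : Fin d → VV k r A → Bool, WS q S *
      (∑ H ∈ Sm, ind (EA C w (K e x H) (K e x H) S y g)) ≤
      N ^ k * (8 * ((1 + 2 * w / (q ^ d * N ^ γ)) ^ k - 1)) := by
    set u : ℝ := 2 * w / (q ^ d * N ^ γ) with hu
    have hu0 : 0 ≤ u := by positivity
    have huB : u = B / N ^ γ := by rw [hu, hB]; field_simp
    have h1 : ∑ x : Fin k → A, ∑ S : Fin d → VV k r A → Bool, WS q S *
        (∑ H ∈ Sm, ind (EA C w (K e x H) (K e x H) S y g)) =
        ∑ H ∈ Sm, ∑ x : Fin k → A, ∑ S : Fin d → VV k r A → Bool,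
          WS q S * ind (EA C w (K e x H) (K e x H) S y g) := by
      have h2 : ∀ x : Fin k → A, ∑ S : Fin d → VV k r A → Bool, WS q S *
          (∑ H ∈ Sm, ind (EA C w (K e x H) (K e x H) S y g)) =
          ∑ H ∈ Sm, ∑ S : Fin d → VV k r A → Bool,
          WS q S * ind (EA C w (K e x H) (K e x H) S y g) := by
        intro x
        simp only [Finset.mul_sum]
        rw [Finset.sum_comm]
      rw [Finset.sum_congr rfl (fun x _ => h2 x), Finset.sum_comm]
    rw [h1]
    have h3 : ∑ H ∈ (univ : Finset (Fin k)).powerset, u ^ H.card = (1 + u) ^ k := by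
      have := Finset.sum_pow_mul_eq_add_pow u 1 (univ : Finset (Fin k))
      simp only [one_pow, mul_one, Finset.card_univ, Fintype.card_fin] at this
      rw [this, add_comm]
    have h4 : ∑ H ∈ Sm, u ^ H.card ≤ (1 + u) ^ k - 1 := by
      rw [← h3, Finset.powerset_univ, ← Finset.add_sum_erase univ _ (mem_univ ∅)]
      simp only [Finset.card_empty, pow_zero, add_sub_cancel_left]
      refine Finset.sum_le_sum_of_subset_of_nonneg ?_ (fun _ _ _ => by positivity)
      intro H hH
      rw [hSm, Finset.mem_filter] at hH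
      exact Finset.mem_erase.2 ⟨hH.2.1, mem_univ _⟩
    calc ∑ H ∈ Sm, ∑ x : Fin k → A, ∑ S : Fin d → VV k r A → Bool,
          WS q S * ind (EA C w (K e x H) (K e x H) S y g)
        ≤ ∑ H ∈ Sm, 8 * (N ^ k * u ^ H.card) := by
          refine Finset.sum_le_sum (fun H hH => ?_)
          rw [hSm, Finset.mem_filter] at hH
          refine (hb H g).trans ?_
          refine mul_le_mul_of_nonneg_left ?_ (by norm_num)
          have h5 : N ^ (γ * H.card) ≤ N ^ (VS e H).card := pow_le_pow_right₀ hN1 (hG H hH.2.2)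
          have h6 : u ^ H.card = B ^ H.card / N ^ (γ * H.card) := by
            rw [huB, div_pow, pow_mul]
          rw [h6]
          calc B ^ H.card * (N ^ k / N ^ (VS e H).card) ≤ B ^ H.card * (N ^ k / N ^ (γ * H.card)) :=
                mul_le_mul_of_nonneg_left (div_le_div_of_nonneg_left (by positivity)
                  (by positivity) h5) (by positivity)
            _ = N ^ k * (B ^ H.card / N ^ (γ * H.card)) := by ring
      _ = 8 * N ^ k * ∑ H ∈ Sm, u ^ H.card := by
          rw [Finset.mul_sum]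
          exact Finset.sum_congr rfl (fun H _ => by ring)
      _ ≤ 8 * N ^ k * ((1 + u) ^ k - 1) := mul_le_mul_of_nonneg_left h4 (by positivity)
      _ = N ^ k * (8 * ((1 + u) ^ k - 1)) := by ring
  calc ∑ x : Fin k → A, ind (C.val (pl (K e x univ) y) g ≠ C.val y g)
      ≤ ∑ x : Fin k → A, ∑ S : Fin d → VV k r A → Bool, WS q S * (ind (¬ Shal C w e x S y) +
        ∑ H ∈ L, ∑ g' : Fin s, ind (EA C w (K e x H) (K e x H) S y g') +
        ∑ H ∈ Sm, ind (EA C w (K e x H) (K e x H) S y g)) := Finset.sum_le_sum (fun x _ => hpt x)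
    _ = ∑ x : Fin k → A, ∑ S : Fin d → VV k r A → Bool, WS q S * ind (¬ Shal C w e x S y) +
        ∑ x : Fin k → A, ∑ S : Fin d → VV k r A → Bool, WS q S *
          (∑ H ∈ L, ∑ g' : Fin s, ind (EA C w (K e x H) (K e x H) S y g')) +
        ∑ x : Fin k → A, ∑ S : Fin d → VV k r A → Bool, WS q S *
          (∑ H ∈ Sm, ind (EA C w (K e x H) (K e x H) S y g)) := by
        rw [← Finset.sum_add_distrib, ← Finset.sum_add_distrib]
        refine Finset.sum_congr rfl (fun x _ => ?_)
        rw [← Finset.sum_add_distrib, ← Finset.sum_add_distrib]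
        exact Finset.sum_congr rfl (fun S _ => by ring)
    _ ≤ ∑ x : Fin k → A, ∑ S : Fin d → VV k r A → Bool, WS q S * ind (¬ Shal C w e x S y) +
        N ^ k * (8 * (2 ^ k * (s * (B ^ (2 * h) / N ^ (β + 1))))) +
        N ^ k * (8 * ((1 + 2 * w / (q ^ d * N ^ γ)) ^ k - 1)) :=
        add_le_add (add_le_add le_rfl hlarge) hsmall
    _ = N ^ k * eta k (Fintype.card A) s w β h d γ q +
      ∑ x : Fin k → A, ∑ S : Fin d → VV k r A → Bool, WS q S * ind (¬ Shal C w e x S y) := by
        unfold eta
        rw [← hN, ← hB]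
        ring

end Pool.Agent.H75.QA
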