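import Pool.Agent.H75.QA.Ws

/-!
# Quantum algorithms with access to constant-depth circuits: touched planted sets (EAB)
-/

namespace Pool.Agent.H75.QA

open Finset Pool.Agent.H68.AC

section

variable {V : Type} [DecidableEq V] [Fintype V] {s d : ℕ}

/-- `EA` in the world of `P` does not depend on the stars in `P`. -/
theorem EA_congr (C : Ckt V s d) (w : ℕ) (P : Finset V) (S S' : Fin d → V → Bool) (y : V → Bool)
    (g : Fin s) (h : ∀ i v, v ∉ P → S i v = S' i v) : EA C w P P S y g ↔ EA C w P P S' y g := by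
  have h1 : C.T P (Rof S y) g = C.T P (Rof S' y) g := by
    refine T_congr C P _ _ g (fun j v hv => ?_)
    simp only [Rof, h j v hv]
  have h2 : ∀ ψ, Alive P S y (C.lev g) ψ ↔ Alive P S' y (C.lev g) ψ := by
    intro ψ
    unfold Alive
    refine forall_congr' fun c => forall_congr' fun _ => forall_congr' fun hc => ?_
    refine or_congr Iff.rfl (exists_congr fun hd => ?_)
    rw [h _ _ hc]
  unfold EA
  rw [h1]
  simp only [h2]

/-- If all variables in `P` are stars the world of `P` is the world of `∅`. -/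
theorem EA_star (C : Ckt V s d) (w : ℕ) (P : Finset V) (S : Fin d → V → Bool) (y : V → Bool)
    (g : Fin s) (h : ∀ i, ∀ v ∈ P, S i v = true) (hE : EA C w P P S y g) : EA C w P ∅ S y g := by
  have h1 : C.T P (Rof S y) g = C.T ∅ (Rof S y) g := by
    refine T_empty C P _ g (fun j v hv => ?_)
    simp only [Rof, h j v hv, if_true]
  unfold EA at hE ⊢
  rw [← h1]
  exact hE

theorem step1 (hI : T_INDS) (C : Ckt V s d) (w : ℕ) (P : Finset V) (q : ℝ) (hq : 0 ≤ q) (hq1 : q ≤ 1)
    (y : V → Bool) (g : Fin s) :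
    q ^ (d * P.card) * ∑ S : Fin d → V → Bool, WS q S * ind (EA C w P P S y g) ≤
      ∑ S : Fin d → V → Bool, WS q S * ind (EA C w P ∅ S y g) := by
  rw [hI V d q P (fun S => ind (EA C w P P S y g)) (fun S S' h => by
    simp only [EA_congr C w P S S' y g h])]
  refine Finset.sum_le_sum (fun S _ => mul_le_mul_of_nonneg_left ?_ (WS_nonneg hq hq1 S))
  by_cases h : ∀ i, ∀ v ∈ P, S i v = true
  · rw [ind_true h, one_mul]
    exact ind_mono (fun hE => EA_star C w P S y g h hE)
  · rw [ind_false h, zero_mul]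
    exact ind_nonneg _

theorem step3 (hC : T_CNT) (C : Ckt V s d) (w : ℕ) (q X : ℝ) (hq : 0 ≤ q) (hq1 : q ≤ 1) (hX : 0 ≤ X)
    (y : V → Bool) (g : Fin s) :
    ∑ S : Fin d → V → Bool, WS q S * ∑ P : Finset V, X ^ P.card * ind (EA C w P ∅ S y g) ≤
      (1 + q + 2 * X) ^ w := by
  have hpos : (0 : ℝ) ≤ (1 + q + 2 * X) ^ w := by positivity
  by_cases hl : C.lev g + 1 < d
  · rw [resampleS q ⟨C.lev g + 1, hl⟩]
    refine sum_WS_le hq hq1 _ _ (fun S => ?_)
    set t := C.T ∅ (Rof S y) g with ht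
    have hT : ∀ z : V → Bool, C.T ∅ (Rof (Function.update S ⟨C.lev g + 1, hl⟩ z) y) g = t := by
      intro z
      refine T_low C ∅ _ _ g (fun i hi => ?_)
      have : i ≠ ⟨C.lev g + 1, hl⟩ := by
        intro h
        rw [h] at hi
        simp at hi
      funext v
      simp only [Rof, Function.update_of_ne this]
    by_cases hw : t.depth ≤ w
    · refine le_trans ?_ (hC V t w y q X hw (fun ψ c h => T_nodup C ∅ _ g ψ c h) hq hq1 hX)
      refine Finset.sum_le_sum (fun z _ => mul_le_mul_of_nonneg_left ?_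
        (Pool.Agent.H90.AC.wz_nonneg hq hq1 z))
      refine Finset.sum_le_sum (fun P _ => mul_le_mul_of_nonneg_left ?_ (by positivity))
      refine ind_mono ?_
      rintro ⟨_, ψ, c, h1, h2, h3⟩
      rw [hT] at h1
      refine ⟨ψ, c, h1, fun u hu huP => ?_, h3⟩
      rcases h2 u hu huP with h4 | ⟨h5, h4⟩
      · exact Or.inl h4
      · refine Or.inr ?_
        rw [Function.update_self] at h4
        exact h4
    · have h0 : ∀ z : V → Bool, ∀ P : Finset V,
          ind (EA C w P ∅ (Function.update S ⟨C.lev g + 1, hl⟩ z) y g) = 0 := by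
        intro z P
        refine ind_false ?_
        rintro ⟨h1, _⟩
        rw [hT] at h1
        exact hw h1
      simp only [h0, mul_zero, Finset.sum_const_zero]
      exact hpos
  · refine sum_WS_le hq hq1 _ _ (fun S => ?_)
    set t := C.T ∅ (Rof S y) g with ht
    by_cases hw : t.depth ≤ w
    · have h1 := hC V t w y 0 X hw (fun ψ c h => T_nodup C ∅ _ g ψ c h) le_rfl zero_le_one hX
      have h2 : (1 + 0 + 2 * X) ^ w ≤ (1 + q + 2 * X) ^ w :=
        pow_le_pow_left₀ (by positivity) (by linarith) w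
      refine le_trans ?_ (h1.trans h2)
      have hwz : ∀ z : V → Bool, 0 ≤ wz (0 : ℝ) z := fun z =>
        Pool.Agent.H90.AC.wz_nonneg le_rfl zero_le_one z
      refine le_trans ?_ (Finset.single_le_sum (f := fun z : V → Bool => wz (0 : ℝ) z *
        ∑ P : Finset V, X ^ P.card * ind (∃ ψ c, IsPath t ψ c ∧
        (∀ u ∈ ψ, u.1 ∉ P → (y u.1 = u.2 ∨ z u.1 = true)) ∧ ∀ v ∈ P, v ∈ ψ.map Prod.fst))
        (fun z _ => mul_nonneg (hwz z) (Finset.sum_nonneg (fun P _ => mul_nonneg (by positivity)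
          (ind_nonneg _)))) (mem_univ (fun _ => false)))
      have hz : wz (0 : ℝ) (fun _ : V => false) = 1 := by simp [wz]
      simp only [hz, one_mul]
      refine Finset.sum_le_sum (fun P _ => mul_le_mul_of_nonneg_left ?_ (by positivity))
      refine ind_mono ?_
      rintro ⟨_, ψ, c, h1, h2, h3⟩
      refine ⟨ψ, c, h1, fun u hu huP => ?_, h3⟩
      rcases h2 u hu huP with h4 | ⟨h5, _⟩
      · exact Or.inl h4
      · exact absurd h5 hl
    · have h0 : ∀ P : Finset V, ind (EA C w P ∅ S y g) = 0 := by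
        intro P
        refine ind_false ?_
        rintro ⟨h1, _⟩
        exact hw h1
      simp only [h0, mul_zero, Finset.sum_const_zero]
      exact hpos

end

theorem exp_bound (w : ℕ) (hw : 1 ≤ w) (q : ℝ) (hq : 0 < q) (hqw : q * w ≤ 1) :
    (1 + q + 2 * (1 / (2 * (w : ℝ)))) ^ w ≤ 8 := by
  have hw0 : (0 : ℝ) < w := by exact_mod_cast hw
  have h1 : (1 + q + 2 * (1 / (2 * (w : ℝ)))) = 1 + (q + 1 / w) := by
    field_simp
    ring
  have h2 : 1 + (q + 1 / (w : ℝ)) ≤ Real.exp (q + 1 / w) := by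
    have := Real.add_one_le_exp (q + 1 / (w : ℝ))
    linarith
  rw [h1]
  calc (1 + (q + 1 / (w : ℝ))) ^ w ≤ (Real.exp (q + 1 / w)) ^ w :=
        pow_le_pow_left₀ (by positivity) h2 w
    _ = Real.exp (w * (q + 1 / w)) := (Real.exp_nat_mul _ _).symm
    _ ≤ Real.exp 2 := by
        apply Real.exp_le_exp.2
        have : (w : ℝ) * (q + 1 / w) = q * w + 1 := by field_simp
        rw [this]; linarith
    _ ≤ 8 := by
        have h3 := Real.exp_one_lt_d9
        have h4 : Real.exp 2 = Real.exp 1 * Real.exp 1 := by rw [← Real.exp_add]; norm_num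
        rw [h4]
        nlinarith [Real.exp_pos 1]

theorem eab_t (hC : T_CNT) (hI : T_INDS) : T_EAB := by
  intro k r s d A _ _ C w e H q y g hw hq hq1 hqw
  have hw0 : (0 : ℝ) < w := by exact_mod_cast hw
  set X : ℝ := 1 / (2 * (w : ℝ)) with hX
  have hX0 : 0 < X := by positivity
  set N : ℝ := (Fintype.card A : ℝ) with hN
  have hN0 : 0 ≤ N := Nat.cast_nonneg _
  -- step 1 for every x
  have h1 : ∀ x : Fin k → A, q ^ (d * H.card) * ∑ S : Fin d → VV k r A → Bool,
      WS q S * ind (EA C w (K e x H) (K e x H) S y g) ≤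
      ∑ S : Fin d → VV k r A → Bool, WS q S * ind (EA C w (K e x H) ∅ S y g) := by
    intro x
    have := step1 hI C w (K e x H) q hq.le hq1 y g
    rw [K_card] at this
    exact this
  -- average over x for fixed S
  have h2 : ∀ S : Fin d → VV k r A → Bool, ∑ x : Fin k → A, ind (EA C w (K e x H) ∅ S y g) ≤
      N ^ (k - (VS e H).card) * (X⁻¹ ^ H.card *
        ∑ P : Finset (VV k r A), X ^ P.card * ind (EA C w P ∅ S y g)) := by
    intro S
    refine le_trans (bc_t k r A e H (fun P => ind (EA C w P ∅ S y g)) (fun P => ind_nonneg _)) ?_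
    refine mul_le_mul_of_nonneg_left ?_ (by positivity)
    rw [Finset.mul_sum]
    refine le_trans (Finset.sum_le_sum (g := fun P => X⁻¹ ^ H.card * (X ^ P.card *
      ind (EA C w P ∅ S y g))) (fun P hP => ?_)) ?_
    · obtain ⟨x, _, rfl⟩ := Finset.mem_image.1 hP
      rw [K_card, ← mul_assoc, ← mul_pow, inv_mul_cancel₀ hX0.ne', one_pow, one_mul]
    · refine Finset.sum_le_sum_of_subset_of_nonneg (Finset.subset_univ _) (fun P _ _ => ?_)
      exact mul_nonneg (by positivity) (mul_nonneg (by positivity) (ind_nonneg _))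
  calc q ^ (d * H.card) * ∑ x : Fin k → A, ∑ S : Fin d → VV k r A → Bool,
        WS q S * ind (EA C w (K e x H) (K e x H) S y g)
      = ∑ x : Fin k → A, q ^ (d * H.card) * ∑ S : Fin d → VV k r A → Bool,
        WS q S * ind (EA C w (K e x H) (K e x H) S y g) := Finset.mul_sum _ _ _
    _ ≤ ∑ x : Fin k → A, ∑ S : Fin d → VV k r A → Bool, WS q S * ind (EA C w (K e x H) ∅ S y g) :=
        Finset.sum_le_sum (fun x _ => h1 x)
    _ = ∑ S : Fin d → VV k r A → Bool, WS q S * ∑ x : Fin k → A, ind (EA C w (K e x H) ∅ S y g) := by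
        rw [Finset.sum_comm]
        exact Finset.sum_congr rfl (fun S _ => (Finset.mul_sum _ _ _).symm)
    _ ≤ ∑ S : Fin d → VV k r A → Bool, WS q S * (N ^ (k - (VS e H).card) * (X⁻¹ ^ H.card *
        ∑ P : Finset (VV k r A), X ^ P.card * ind (EA C w P ∅ S y g))) :=
        Finset.sum_le_sum (fun S _ => mul_le_mul_of_nonneg_left (h2 S) (WS_nonneg hq.le hq1 S))
    _ = N ^ (k - (VS e H).card) * X⁻¹ ^ H.card * ∑ S : Fin d → VV k r A → Bool, WS q S *
        ∑ P : Finset (VV k r A), X ^ P.card * ind (EA C w P ∅ S y g) := by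
        rw [Finset.mul_sum]
        exact Finset.sum_congr rfl (fun S _ => by ring)
    _ ≤ N ^ (k - (VS e H).card) * X⁻¹ ^ H.card * (1 + q + 2 * X) ^ w :=
        mul_le_mul_of_nonneg_left (step3 hC C w q X hq.le hq1 hX0.le y g) (by positivity)
    _ ≤ N ^ (k - (VS e H).card) * X⁻¹ ^ H.card * 8 :=
        mul_le_mul_of_nonneg_left (exp_bound w hw q hq hqw) (by positivity)
    _ = 8 * (2 * w) ^ H.card * N ^ (k - (VS e H).card) := by
        rw [hX, one_div, inv_inv]
        ring

end Pool.Agent.H75.QA
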