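import Pool.Agent.H75.QA.Ws

/-!
# Quantum algorithms with access to constant-depth circuits: assembly
-/

namespace Pool.Agent.H75.QA

open Finset Filter Pool.Agent.H68.AC

/-- Cauchy-Schwarz for a probability distribution. -/
theorem sum_sqrt_le {ι : Type} [Fintype ι] (μ f : ι → ℝ) (hμ : ∀ i, 0 ≤ μ i) (h1 : ∑ i, μ i = 1)
    (hf : ∀ i, 0 ≤ f i) : ∑ i, μ i * √(f i) ≤ √(∑ i, μ i * f i) := by
  apply Real.le_sqrt_of_sq_le
  have h2 := Finset.sum_mul_sq_le_sq_mul_sq Finset.univ (fun i => √(μ i)) (fun i => √(μ i) * √(f i))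
  have h3 : ∀ i, √(μ i) * (√(μ i) * √(f i)) = μ i * √(f i) := fun i => by
    rw [← mul_assoc, Real.mul_self_sqrt (hμ i)]
  have h4 : ∀ i, √(μ i) ^ 2 = μ i := fun i => Real.sq_sqrt (hμ i)
  have h5 : ∀ i, (√(μ i) * √(f i)) ^ 2 = μ i * f i := fun i => by
    rw [mul_pow, Real.sq_sqrt (hμ i), Real.sq_sqrt (hf i)]
  simp only [h3, h4, h5, h1, one_mul] at h2
  exact h2

theorem V_prob_le_one {κ : Type} (V : Verifier κ) (a : κ → Prop) (ψ : EuclideanSpace ℂ (Fin V.dim))
    (h : ‖ψ‖ = 1) : V.prob a ψ ≤ 1 := by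
  have hs : ∀ t, ‖V.state a ψ t‖ = 1 := by
    intro t
    induction t with
    | zero =>
      have e : V.state a ψ 0 = V.U 0 ψ := rfl
      rw [e, LinearIsometryEquiv.norm_map, h]
    | succ t ih =>
      have e : V.state a ψ (t + 1) = V.U (t + 1) (V.oracle a (V.state a ψ t)) := rfl
      rw [e, LinearIsometryEquiv.norm_map, ← ih, EuclideanSpace.norm_eq, EuclideanSpace.norm_eq]
      congr 1
      refine Finset.sum_congr rfl (fun b _ => ?_)
      have e1 : V.oracle a (V.state a ψ t) b = sgn a (V.query b) * V.state a ψ t b := rfl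
      have e2 : ‖sgn a (V.query b)‖ = 1 := by
        unfold sgn
        split_ifs <;> simp
      rw [e1, norm_mul, e2, one_mul]
  unfold Verifier.prob
  calc ∑ b ∈ V.acc, ‖V.state a ψ V.T b‖ ^ 2 ≤ ∑ b, ‖V.state a ψ V.T b‖ ^ 2 :=
        Finset.sum_le_sum_of_subset_of_nonneg (Finset.subset_univ _) (fun _ _ _ => by positivity)
    _ = ‖V.state a ψ V.T‖ ^ 2 := (EuclideanSpace.norm_sq_eq _).symm
    _ = 1 := by rw [hs]; norm_num

theorem V_prob_nonneg {κ : Type} (V : Verifier κ) (a : κ → Prop) (ψ : EuclideanSpace ℂ (Fin V.dim)) :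
    0 ≤ V.prob a ψ := Finset.sum_nonneg (fun _ _ => by positivity)

theorem V_prob_diff {κ : Type} (V : Verifier κ) (a a' : κ → Prop) (ψ : EuclideanSpace ℂ (Fin V.dim))
    (h : ‖ψ‖ = 1) : |V.prob a ψ - V.prob a' ψ| ≤ 1 := by
  have h1 := V_prob_le_one V a ψ h
  have h2 := V_prob_le_one V a' ψ h
  have h3 := V_prob_nonneg V a ψ
  have h4 := V_prob_nonneg V a' ψ
  rw [abs_le]
  constructor <;> linarith

/-- The core: the constraint satisfaction function. -/
theorem core (hKEY : T_KEY) (hADEEP : T_ADEEP) (hHYB : T_HYB)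
    (k r s d : ℕ) (A : Type) [DecidableEq A] [Fintype A] (w : ℕ) (e : Fin k → Fin r → Fin k)
    (p q : ℝ) (β h γ : ℕ) (hE : Expd e β h) (hG : Expg e γ h) (hh : 1 ≤ h) (hw : 1 ≤ w)
    (hp : 0 < p) (hp1 : p ≤ 1 / 2) (hq : 0 < q) (hq1 : q ≤ 1 / 2) (hwq : 64 * w * q ≤ p)
    (hA : 1 ≤ Fintype.card A) (κ : Type) [Fintype κ] (F : κ → Ckt (VV k r A) s d) (V : Verifier κ)
    (χ : (VV k r A → Bool) → EuclideanSpace ℂ (Fin V.dim)) (hχ : ∀ y, ‖χ y‖ = 1)
    (ans : (VV k r A → Bool) → κ → Prop)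
    (hans : ∀ y y' i, (F i).val y (F i).out = (F i).val y' (F i).out → (ans y i ↔ ans y' i)) :
    ∑ y : VV k r A → Bool, wz p y * ((1 - ind (fE e y)) *
      ∑ x : Fin k → A, |V.prob (ans (pl (K e x univ) y)) (χ y) - V.prob (ans y) (χ y)|) ≤
      (Fintype.card A : ℝ) ^ k * (4 * V.T * √(eta k (Fintype.card A) s w β h d γ q +
        Fintype.card κ * deepErr k s w)) := by
  classical
  set N : ℝ := (Fintype.card A : ℝ) with hN
  have hN1 : 1 ≤ N := by rw [hN]; exact_mod_cast hA
  have hN0 : 0 < N := by linarith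
  have hX : (Fintype.card (Fin k → A) : ℝ) = N ^ k := by
    rw [hN, Fintype.card_fun, Fintype.card_fin]
    push_cast
    rfl
  have hqw : q * w ≤ 1 := by
    have : (0 : ℝ) ≤ q * w := by positivity
    nlinarith
  set η : ℝ := eta k (Fintype.card A) s w β h d γ q with hη
  set dp : κ → (VV k r A → Bool) → ℝ := fun i y => ∑ x : Fin k → A,
    ∑ S : Fin d → VV k r A → Bool, WS q S * ind (¬ Shal (F i) w e x S y) with hdp
  have hdp0 : ∀ i y, 0 ≤ dp i y := fun i y => Finset.sum_nonneg (fun x _ => Finset.sum_nonneg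
    (fun S _ => mul_nonneg (WS_nonneg hq.le (by linarith) S) (ind_nonneg _)))
  set dd : (VV k r A → Bool) → ℝ := fun y => η + (∑ i, dp i y) / N ^ k with hdd
  have hη0 : 0 ≤ η := by
    rw [hη]
    unfold eta
    rw [← hN]
    have h1 : (1 : ℝ) ≤ (1 + 2 * w / (q ^ d * N ^ γ)) ^ k := by
      apply one_le_pow₀
      have : 0 ≤ 2 * (w : ℝ) / (q ^ d * N ^ γ) := by positivity
      linarith
    have h2 : 0 ≤ 2 ^ k * ((s : ℝ) * ((2 * w / q ^ d) ^ (2 * h) / N ^ (β + 1))) := by positivity
    nlinarith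
  have hdd0 : ∀ y, 0 ≤ dd y := fun y => add_nonneg hη0
    (div_nonneg (Finset.sum_nonneg (fun i _ => hdp0 i y)) (by positivity))
  -- for fixed y
  have hy : ∀ y : VV k r A → Bool,
      ∑ x : Fin k → A, |V.prob (ans (pl (K e x univ) y)) (χ y) - V.prob (ans y) (χ y)| ≤
      4 * V.T * √(dd y) * N ^ k := by
    intro y
    have h1 := hHYB κ (Fin k → A) V (ans y) (fun x => ans (pl (K e x univ) y)) (χ y) (dd y) (hχ y)
      (hdd0 y) (fun i => ?_)
    · rw [hX] at h1
      exact h1
    · have h2 := hKEY k r s d A (F i) w e q β h γ hE hG hh hw hq (by linarith) hqw hA y (F i).out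
      calc ∑ x : Fin k → A, ind (¬ (ans (pl (K e x univ) y) i ↔ ans y i))
          ≤ ∑ x : Fin k → A, ind ((F i).val (pl (K e x univ) y) (F i).out ≠ (F i).val y (F i).out) := by
            refine Finset.sum_le_sum (fun x _ => ind_mono (fun hn heq => hn ?_))
            exact hans _ _ i heq
        _ ≤ N ^ k * η + dp i y := h2
        _ ≤ N ^ k * η + ∑ i, dp i y := by
            have := Finset.single_le_sum (f := fun i => dp i y) (fun i _ => hdp0 i y) (mem_univ i)
            linarith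
        _ = dd y * Fintype.card (Fin k → A) := by
            rw [hX, hdd]
            field_simp
  have hwz : ∀ y : VV k r A → Bool, 0 ≤ wz p y := fun y =>
    Pool.Agent.H90.AC.wz_nonneg hp.le (by linarith) y
  -- the average of dd
  have havg : ∑ y : VV k r A → Bool, wz p y * dd y ≤ η + Fintype.card κ * deepErr k s w := by
    have h1 : ∀ i, ∑ y : VV k r A → Bool, wz p y * dp i y ≤ N ^ k * deepErr k s w := by
      intro i
      calc ∑ y : VV k r A → Bool, wz p y * dp i y
          = ∑ x : Fin k → A, ∑ S : Fin d → VV k r A → Bool, ∑ y : VV k r A → Bool,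
            WS q S * wz p y * ind (¬ Shal (F i) w e x S y) := by
            simp only [hdp, Finset.mul_sum]
            rw [Finset.sum_comm]
            refine Finset.sum_congr rfl (fun x _ => ?_)
            rw [Finset.sum_comm]
            refine Finset.sum_congr rfl (fun S _ => ?_)
            exact Finset.sum_congr rfl (fun y _ => by ring)
        _ ≤ ∑ _x : Fin k → A, deepErr k s w := Finset.sum_le_sum (fun x _ =>
            hADEEP k r s d A (F i) w e x p q hw hp hp1 hq hq1 hwq)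
        _ = N ^ k * deepErr k s w := by
            rw [Finset.sum_const, Finset.card_univ, nsmul_eq_mul, hX]
    calc ∑ y : VV k r A → Bool, wz p y * dd y
        = η * ∑ y : VV k r A → Bool, wz p y +
          (∑ i, ∑ y : VV k r A → Bool, wz p y * dp i y) / N ^ k := by
          rw [Finset.sum_comm, Finset.sum_div, Finset.mul_sum, ← Finset.sum_add_distrib]
          refine Finset.sum_congr rfl (fun y _ => ?_)
          rw [hdd, ← Finset.mul_sum]
          ring
      _ ≤ η * 1 + (∑ _i : κ, N ^ k * deepErr k s w) / N ^ k := by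
          rw [Pool.Agent.H90.AC.sum_wz]
          refine add_le_add le_rfl ?_
          exact div_le_div_of_nonneg_right (Finset.sum_le_sum (fun i _ => h1 i)) (by positivity)
      _ = η + Fintype.card κ * deepErr k s w := by
          rw [Finset.sum_const, Finset.card_univ, nsmul_eq_mul]
          field_simp
  calc ∑ y : VV k r A → Bool, wz p y * ((1 - ind (fE e y)) *
        ∑ x : Fin k → A, |V.prob (ans (pl (K e x univ) y)) (χ y) - V.prob (ans y) (χ y)|)
      ≤ ∑ y : VV k r A → Bool, wz p y * (4 * V.T * √(dd y) * N ^ k) := by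
        refine Finset.sum_le_sum (fun y _ => mul_le_mul_of_nonneg_left ?_ (hwz y))
        have h0 : 0 ≤ ∑ x : Fin k → A, |V.prob (ans (pl (K e x univ) y)) (χ y) - V.prob (ans y) (χ y)| :=
          Finset.sum_nonneg (fun _ _ => abs_nonneg _)
        have h1 := ind_nonneg (fE e y)
        refine le_trans ?_ (hy y)
        nlinarith
    _ = N ^ k * (4 * V.T * ∑ y : VV k r A → Bool, wz p y * √(dd y)) := by
        rw [Finset.mul_sum, Finset.mul_sum]
        exact Finset.sum_congr rfl (fun y _ => by ring)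
    _ ≤ N ^ k * (4 * V.T * √(∑ y : VV k r A → Bool, wz p y * dd y)) := by
        refine mul_le_mul_of_nonneg_left (mul_le_mul_of_nonneg_left ?_ (by positivity)) (by positivity)
        exact sum_sqrt_le _ _ hwz (Pool.Agent.H90.AC.sum_wz p) hdd0
    _ ≤ N ^ k * (4 * V.T * √(η + Fintype.card κ * deepErr k s w)) := by
        refine mul_le_mul_of_nonneg_left (mul_le_mul_of_nonneg_left ?_ (by positivity)) (by positivity)
        exact Real.sqrt_le_sqrt havg

/-- The assembly for given parameters. -/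
theorem assemble (hKEY : T_KEY) (hADEEP : T_ADEEP) (hNULL : T_NULLU) (hHYB : T_HYB) (hENB : T_ENB)
    (n m C k r d w W : ℕ) (A : Type) [DecidableEq A] [Fintype A] (e : Fin k → Fin r → Fin k)
    (inc : Fin m × Fin n × Bool → Inp (VV k r A))
    (hinc : ∀ y, (Satisfiable (fun i => (inc i).val y) ↔ fE e y) ∧
      ∀ j, width (fun i => (inc i).val y) j ≤ W)
    (p q : ℝ) (β h γ : ℕ) (hE : Expd e β h) (hG : Expg e γ h) (hh : 1 ≤ h) (hk : 1 ≤ k) (hw : 1 ≤ w)
    (hp : 0 < p) (hp1 : p ≤ 1 / 2) (hq : 0 < q) (hq1 : q ≤ 1 / 2) (hwq : 64 * w * q ≤ p)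
    (hcard1 : 1 ≤ Fintype.card A) (B : ℝ)
    (hHN : ∀ s : ℕ, (s : ℝ) ≤ B → HNQ n C k (Fintype.card A) s w β h d γ p q) :
    ∃ (Ω : Type) (_ : Fintype Ω) (μ : Ω → ℝ) (φ₀ φ₁ : Ω → Fin m × Fin n × Bool → Bool),
    (∀ ω, 0 ≤ μ ω) ∧ ∑ ω, μ ω = 1 ∧
    (∀ ω, ¬ Satisfiable (φ₀ ω) ∧ Satisfiable (φ₁ ω) ∧
      ∀ j, width (φ₀ ω) j ≤ W ∧ width (φ₁ ω) j ≤ W) ∧
    ∀ (κ : Type) [Fintype κ] (s : ℕ) (F : κ → Circuit (Fin m × Fin n × Bool) s) (V : Verifier κ)
      (χ : (Fin m × Fin n × Bool → Bool) → EuclideanSpace ℂ (Fin V.dim)),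
      Fintype.card κ ≤ 2 ^ (n ^ C) → (s : ℝ) ≤ B → (∀ i, (F i).DepthLE d) →
      V.T ≤ n ^ C → (∀ φ, ‖χ φ‖ = 1) →
      ∑ ω, μ ω * |V.prob (answers F (φ₁ ω)) (χ (φ₀ ω)) - V.prob (answers F (φ₀ ω)) (χ (φ₀ ω))| ≤
        1 / (n : ℝ) ^ C := by
  classical
  set N : ℝ := (Fintype.card A : ℝ) with hN
  have hN0 : 0 < N := by rw [hN]; exact_mod_cast hcard1
  have hX : (Fintype.card (Fin k → A) : ℝ) = N ^ k := by
    rw [hN, Fintype.card_fun, Fintype.card_fin]
    push_cast
    rfl
  set enc : (VV k r A → Bool) → Fin m × Fin n × Bool → Bool := fun y i => (inc i).val y with henc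
  set y' : (VV k r A → Bool) → (VV k r A → Bool) := fun y => if fE e y then (fun _ => false) else y
    with hy'
  have hwz : ∀ y : VV k r A → Bool, 0 ≤ wz p y := fun y =>
    Pool.Agent.H90.AC.wz_nonneg hp.le (by linarith) y
  have hy1 : ∀ y, ¬ fE e y → y' y = y := fun y h => if_neg h
  have hy2 : ∀ y, fE e y → y' y = fun _ => false := fun y h => if_pos h
  have hunsat : ∀ y, ¬ fE e (y' y) := by
    intro y
    by_cases h : fE e y
    · rw [hy2 y h]
      rintro ⟨x, hx⟩
      exact Bool.false_ne_true (hx ⟨0, hk⟩)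
    · rw [hy1 y h]
      exact h
  have hsat : ∀ (y : VV k r A → Bool) (x : Fin k → A), fE e (pl (K e x univ) y) := by
    intro y x
    refine ⟨x, fun j => ?_⟩
    have : pos e x j ∈ K e x univ := Finset.mem_image_of_mem _ (mem_univ j)
    simp [pl, this]
  refine ⟨(VV k r A → Bool) × (Fin k → A), inferInstance, fun ω => wz p ω.1 / N ^ k,
    fun ω => enc (y' ω.1), fun ω => enc (pl (K e ω.2 univ) (y' ω.1)), ?_, ?_, ?_, ?_⟩
  · intro ω
    exact div_nonneg (hwz _) (by positivity)
  · rw [Fintype.sum_prod_type]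
    simp only [Finset.sum_const, Finset.card_univ, nsmul_eq_mul, hX]
    have : ∀ y : VV k r A → Bool, N ^ k * (wz p y / N ^ k) = wz p y := fun y => by field_simp
    simp only [this]
    exact Pool.Agent.H90.AC.sum_wz p
  · intro ω
    refine ⟨?_, ?_, fun j => ⟨(hinc _).2 j, (hinc _).2 j⟩⟩
    · exact fun hs => hunsat _ ((hinc _).1.1 hs)
    · exact (hinc _).1.2 (hsat _ _)
  · intro κ _ s F V χ hκ hs hd hT hχ
    have hC : ∀ i, ∃ (C' : Ckt (VV k r A) s d) (b : Bool), ∀ y,
        (C'.val y C'.out = b ↔ (F i).Holds (enc y) (F i).out) := fun i =>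
      hENB _ (VV k r A) s d (F i) inc (hd i)
    choose C' b hb using hC
    have hcore := core hKEY hADEEP hHYB k r s d A w e p q β h γ hE hG hh hw hp
      hp1 hq hq1 hwq hcard1 κ C' V (fun y => χ (enc y)) (fun y => hχ _) (fun y => answers F (enc y))
      (fun y y' i h => by
        show (F i).Holds (enc y) (F i).out ↔ (F i).Holds (enc y') (F i).out
        rw [← hb, ← hb, h])
    have hnull := hNULL k r A e p hp.le (by linarith)
    have hfin := hHN s hs
    unfold HNQ at hfin
    rw [← hN] at hfin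
    have hde : 0 ≤ deepErr k s w := by unfold deepErr; positivity
    have hsq : √(eta k (Fintype.card A) s w β h d γ q + Fintype.card κ * deepErr k s w) ≤
        √(eta k (Fintype.card A) s w β h d γ q + 2 ^ (n ^ C) * deepErr k s w) := by
      apply Real.sqrt_le_sqrt
      refine add_le_add le_rfl (mul_le_mul_of_nonneg_right ?_ hde)
      exact_mod_cast hκ
    have hTn : (V.T : ℝ) ≤ (n : ℝ) ^ C := by exact_mod_cast hT
    calc ∑ ω : (VV k r A → Bool) × (Fin k → A), wz p ω.1 / N ^ k *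
          |V.prob (answers F (enc (pl (K e ω.2 univ) (y' ω.1)))) (χ (enc (y' ω.1))) -
            V.prob (answers F (enc (y' ω.1))) (χ (enc (y' ω.1)))|
        = ∑ y : VV k r A → Bool, wz p y * ((∑ x : Fin k → A,
          |V.prob (answers F (enc (pl (K e x univ) (y' y)))) (χ (enc (y' y))) -
            V.prob (answers F (enc (y' y))) (χ (enc (y' y)))|) / N ^ k) := by
          rw [Fintype.sum_prod_type]
          refine Finset.sum_congr rfl (fun y _ => ?_)
          rw [Finset.sum_div, Finset.mul_sum]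
          exact Finset.sum_congr rfl (fun x _ => by ring)
      _ ≤ ∑ y : VV k r A → Bool, (wz p y * ind (fE e y) + wz p y * ((1 - ind (fE e y)) *
          ∑ x : Fin k → A, |V.prob (answers F (enc (pl (K e x univ) y))) (χ (enc y)) -
            V.prob (answers F (enc y)) (χ (enc y))|) / N ^ k) := by
          refine Finset.sum_le_sum (fun y _ => ?_)
          by_cases h : fE e y
          · rw [ind_true h]
            have h1 : (∑ x : Fin k → A,
                |V.prob (answers F (enc (pl (K e x univ) (y' y)))) (χ (enc (y' y))) -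
                V.prob (answers F (enc (y' y))) (χ (enc (y' y)))|) / N ^ k ≤ 1 := by
              rw [div_le_one (by positivity), ← hX, ← Finset.card_univ, ← nsmul_one,
                ← Finset.sum_const]
              exact Finset.sum_le_sum (fun x _ => V_prob_diff V _ _ _ (hχ _))
            have h2 := mul_le_mul_of_nonneg_left h1 (hwz y)
            simp only [sub_self, zero_mul, mul_zero, zero_div, add_zero]
            exact h2
          · rw [ind_false h, hy1 y h]
            refine le_of_eq ?_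
            ring
      _ = ∑ y : VV k r A → Bool, wz p y * ind (fE e y) + (∑ y : VV k r A → Bool, wz p y *
          ((1 - ind (fE e y)) * ∑ x : Fin k → A, |V.prob (answers F (enc (pl (K e x univ) y))) (χ (enc y)) -
            V.prob (answers F (enc y)) (χ (enc y))|)) / N ^ k := by
          rw [Finset.sum_add_distrib, Finset.sum_div]
      _ ≤ (N * p) ^ k + (N ^ k * (4 * V.T * √(eta k (Fintype.card A) s w β h d γ q +
          Fintype.card κ * deepErr k s w))) / N ^ k :=
          add_le_add hnull (div_le_div_of_nonneg_right hcore (pow_nonneg hN0.le k))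
      _ = (N * p) ^ k + 4 * V.T * √(eta k (Fintype.card A) s w β h d γ q +
          Fintype.card κ * deepErr k s w) := by
          field_simp
      _ ≤ (N * p) ^ k + 4 * (n : ℝ) ^ C * √(eta k (Fintype.card A) s w β h d γ q +
          2 ^ (n ^ C) * deepErr k s w) := by
          refine add_le_add le_rfl ?_
          refine mul_le_mul ?_ hsq (Real.sqrt_nonneg _) (by positivity)
          linarith
      _ ≤ 1 / (n : ℝ) ^ C := hfin

theorem main_t (hKEY : T_KEY) (hADEEP : T_ADEEP) (hNULL : T_NULLU) (hHYB : T_HYB) (hHGX : T_HGX)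
    (hPARX : T_PARX) (hENA : T_ENA) (hENB : T_ENB) : T_MAIN := by
  intro d C ε hε
  obtain ⟨β, δ, γ, hβ, hβ1, hδ, hP⟩ := hPARX d C (min ε 1) (lt_min hε one_pos) (min_le_right _ _)
  obtain ⟨δ', r, hδ', hδδ, hH⟩ := hHGX β δ γ hβ hβ1 hδ
  obtain ⟨c, hc⟩ := hP δ' r hδ' hδδ
  refine ⟨c, ?_⟩
  filter_upwards [hc] with n hn
  obtain ⟨k, ℓ, w, p, q, hk, hℓ, hkl, hkn, hwid, hδk, hw, hp, hp1, hq, hq1, hwq, hHN⟩ := hn
  intro m hm
  obtain ⟨e, hE, hG⟩ := hH k hk
  obtain ⟨inc, hinc⟩ := hENA k r ℓ n m e hℓ hk hkl (hkn.trans hm)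
  have hcard : Fintype.card (Fin ℓ → Bool) = 2 ^ ℓ := by simp
  have hcard1 : 1 ≤ Fintype.card (Fin ℓ → Bool) := by rw [hcard]; exact Nat.one_le_two_pow
  refine assemble hKEY hADEEP hNULL hHYB hENB n m C k r d w _ (Fin ℓ → Bool) e inc
    (fun y => ⟨(hinc y).1, fun j => ((hinc y).2 j).trans hwid⟩) p q _ _ γ hE hG hδk hk hw hp hp1 hq hq1
    hwq hcard1 ((2 : ℝ) ^ ((1 - ε) * n)) (fun s hs => ?_)
  rw [hcard]
  refine hHN s (hs.trans ?_)
  apply Real.rpow_le_rpow_of_exponent_le (by norm_num)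
  have h1 : (0 : ℝ) ≤ n := Nat.cast_nonneg n
  have h2 := min_le_left ε 1
  nlinarith

end Pool.Agent.H75.QA
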