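import Pool.Agent.H75.QA.Targets
import Pool.Agent.H17.QM.Alg

/-!
# Quantum algorithms with access to constant-depth circuits: the hybrid argument
-/

namespace Pool.Agent.H75.QA

open Finset Filter Pool.Agent.H68.AC

/-- The query algorithm with initial state `ψ` as in `H17`. -/
noncomputable def Verifier.alg {κ : Type} (V : Verifier κ) (ψ : EuclideanSpace ℂ (Fin V.dim)) (h : ‖ψ‖ = 1) :
    Pool.Agent.H17.QM.QAlg κ where
  dim := V.dim
  query := V.query
  T := V.T
  U := V.U
  init := ψ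
  norm_init := h
  acc := V.acc

open Classical in
/-- The phases of the answers. -/
noncomputable def ph {κ : Type} (a : κ → Prop) : κ → ℂ := fun i => if a i then -1 else 1

theorem norm_ph {κ : Type} (a : κ → Prop) (i : κ) : ‖ph a i‖ = 1 := by
  unfold ph
  split_ifs <;> simp

theorem phase_alg {κ : Type} (V : Verifier κ) (ψ : EuclideanSpace ℂ (Fin V.dim)) (h : ‖ψ‖ = 1)
    (a : κ → Prop) (b : Fin V.dim) : (V.alg ψ h).phase (ph a) b = sgn a (V.query b) := by
  have e : (V.alg ψ h).phase (ph a) b = (match V.query b with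
    | none => 1
    | some s => ph a s) := rfl
  classical
  rw [e]
  unfold sgn ph
  cases hq : V.query b with
  | none => simp
  | some i =>
    have hi : (∃ j, some i = some j ∧ a j) ↔ a i :=
      ⟨fun ⟨j, hj, h⟩ => (Option.some.inj hj) ▸ h, fun h => ⟨i, rfl, h⟩⟩
    show (if a i then (-1 : ℂ) else 1) = if ∃ j, some i = some j ∧ a j then -1 else 1
    by_cases h1 : a i
    · rw [if_pos h1, if_pos (hi.2 h1)]
    · rw [if_neg h1, if_neg (fun h => h1 (hi.1 h))]

theorem state_alg {κ : Type} (V : Verifier κ) (ψ : EuclideanSpace ℂ (Fin V.dim)) (h : ‖ψ‖ = 1)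
    (a : κ → Prop) (t : ℕ) : (V.alg ψ h).state (ph a) t = V.state a ψ t := by
  induction t with
  | zero => rfl
  | succ t ih =>
    have e1 : (V.alg ψ h).state (ph a) (t + 1) =
      V.U (t + 1) ((V.alg ψ h).oracle (ph a) ((V.alg ψ h).state (ph a) t)) := rfl
    have e2 : V.state a ψ (t + 1) = V.U (t + 1) (V.oracle a (V.state a ψ t)) := rfl
    rw [e1, e2, ih]
    congr 1
    ext b
    have e3 : (V.alg ψ h).oracle (ph a) (V.state a ψ t) b =
      (V.alg ψ h).phase (ph a) b * V.state a ψ t b := rfl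
    have e4 : V.oracle a (V.state a ψ t) b = sgn a (V.query b) * V.state a ψ t b := rfl
    rw [e4, ← phase_alg V ψ h]
    exact e3

theorem prob_alg {κ : Type} (V : Verifier κ) (ψ : EuclideanSpace ℂ (Fin V.dim)) (h : ‖ψ‖ = 1)
    (a : κ → Prop) : (V.alg ψ h).prob (ph a) = V.prob a ψ := by
  have e : (V.alg ψ h).prob (ph a) = ∑ b ∈ V.acc, ‖(V.alg ψ h).state (ph a) V.T b‖ ^ 2 := rfl
  rw [e, state_alg]
  rfl

theorem hyb_t : T_HYB := by
  classical
  intro κ X _ _ V a₀ a₁ ψ η hψ hη hd
  set Q := V.alg ψ hψ with hQ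
  set W : ℕ → X → ℝ := fun t x => Q.wt (Q.diff (ph (a₁ x)) (ph a₀)) (Q.state (ph a₀) t) with hW
  have hW0 : ∀ t x, 0 ≤ W t x := fun t x => Q.wt_nonneg _ _
  -- the weight of the changed queries
  have hWs : ∀ t, ∑ x, W t x ≤ η * Fintype.card X := by
    intro t
    have h1 : ∀ x, W t x = ∑ b, ‖Q.state (ph a₀) t b‖ ^ 2 *
        (if Q.phase (ph (a₁ x)) b ≠ Q.phase (ph a₀) b then (1 : ℝ) else 0) := by
      intro x
      have e : W t x = ∑ b ∈ Finset.univ.filter (fun b => Q.phase (ph (a₁ x)) b ≠ Q.phase (ph a₀) b),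
        ‖Q.state (ph a₀) t b‖ ^ 2 := rfl
      rw [e, Finset.sum_filter]
      refine Finset.sum_congr rfl (fun b _ => ?_)
      split_ifs <;> simp
    have h2 : ∀ b, ∑ x, (if Q.phase (ph (a₁ x)) b ≠ Q.phase (ph a₀) b then (1 : ℝ) else 0) ≤
        η * Fintype.card X := by
      intro b
      have hb : ∀ a : κ → Prop, Q.phase (ph a) b = sgn a (V.query b) := fun a => phase_alg V ψ hψ a b
      cases hq : V.query b with
      | none =>
        have : ∀ x, Q.phase (ph (a₁ x)) b = Q.phase (ph a₀) b := by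
          intro x
          rw [hb, hb, hq]
          simp [sgn]
        simp only [this, ne_eq, not_true_eq_false, if_false, Finset.sum_const_zero]
        positivity
      | some i =>
        refine le_trans (Finset.sum_le_sum (fun x _ => ?_)) (hd i)
        by_cases hx : (a₁ x i ↔ a₀ i)
        · have : Q.phase (ph (a₁ x)) b = Q.phase (ph a₀) b := by
            rw [hb, hb, hq]
            simp [sgn, hx]
          simp only [this, ne_eq, not_true_eq_false, if_false]
          unfold ind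
          split_ifs <;> norm_num
        · have h3 : ind (¬ (a₁ x i ↔ a₀ i)) = 1 := by
            unfold ind
            rw [if_pos hx]
          rw [h3]
          split_ifs <;> norm_num
    calc ∑ x, W t x = ∑ x, ∑ b, ‖Q.state (ph a₀) t b‖ ^ 2 *
          (if Q.phase (ph (a₁ x)) b ≠ Q.phase (ph a₀) b then (1 : ℝ) else 0) :=
          Finset.sum_congr rfl (fun x _ => h1 x)
      _ = ∑ b, ‖Q.state (ph a₀) t b‖ ^ 2 *
          ∑ x, (if Q.phase (ph (a₁ x)) b ≠ Q.phase (ph a₀) b then (1 : ℝ) else 0) := by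
          rw [Finset.sum_comm]
          exact Finset.sum_congr rfl (fun b _ => (Finset.mul_sum _ _ _).symm)
      _ ≤ ∑ b, ‖Q.state (ph a₀) t b‖ ^ 2 * (η * Fintype.card X) :=
          Finset.sum_le_sum (fun b _ => mul_le_mul_of_nonneg_left (h2 b) (by positivity))
      _ = ‖Q.state (ph a₀) t‖ ^ 2 * (η * Fintype.card X) := by
          rw [← Finset.sum_mul, EuclideanSpace.norm_sq_eq]
      _ = η * Fintype.card X := by
          rw [Q.norm_state (norm_ph a₀) t]
          ring
  have hx : ∀ x, |V.prob (a₁ x) ψ - V.prob a₀ ψ| ≤ 2 * √(4 * V.T * ∑ t ∈ Finset.range V.T, W t x) := by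
    intro x
    rw [← prob_alg V ψ hψ, ← prob_alg V ψ hψ]
    refine le_trans (Q.abs_prob_sub (norm_ph _) (norm_ph _)) ?_
    refine mul_le_mul_of_nonneg_left ?_ (by norm_num)
    refine Real.le_sqrt_of_sq_le ?_
    exact Q.norm_state_sub_sq (norm_ph _) (norm_ph _) V.T
  have hcs : (∑ x, √(4 * V.T * ∑ t ∈ Finset.range V.T, W t x)) ^ 2 ≤
      Fintype.card X * ∑ x, (4 * V.T * ∑ t ∈ Finset.range V.T, W t x) := by
    have h3 := sq_sum_le_card_mul_sum_sq (s := (Finset.univ : Finset X))
      (f := fun x => √(4 * V.T * ∑ t ∈ Finset.range V.T, W t x))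
    refine h3.trans (le_of_eq ?_)
    rw [Finset.card_univ]
    congr 1
    refine Finset.sum_congr rfl (fun x _ => Real.sq_sqrt ?_)
    exact mul_nonneg (by positivity) (Finset.sum_nonneg (fun t _ => hW0 t x))
  have hsum : ∑ x, (4 * (V.T : ℝ) * ∑ t ∈ Finset.range V.T, W t x) ≤
      4 * V.T * (V.T * (η * Fintype.card X)) := by
    rw [← Finset.mul_sum, Finset.sum_comm]
    refine mul_le_mul_of_nonneg_left ?_ (by positivity)
    refine le_trans (Finset.sum_le_sum (fun t _ => hWs t)) ?_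
    simp
  have hfin : ∑ x, √(4 * V.T * ∑ t ∈ Finset.range V.T, W t x) ≤ 2 * V.T * √η * Fintype.card X := by
    refine abs_le_of_sq_le_sq' ?_ (by positivity) |>.2
    refine hcs.trans ?_
    calc (Fintype.card X : ℝ) * ∑ x, (4 * V.T * ∑ t ∈ Finset.range V.T, W t x)
        ≤ Fintype.card X * (4 * V.T * (V.T * (η * Fintype.card X))) :=
          mul_le_mul_of_nonneg_left hsum (by positivity)
      _ = (2 * V.T * √η * Fintype.card X) ^ 2 := by
          rw [mul_pow, mul_pow, mul_pow, Real.sq_sqrt hη]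
          ring
  calc ∑ x, |V.prob (a₁ x) ψ - V.prob a₀ ψ|
      ≤ ∑ x, 2 * √(4 * V.T * ∑ t ∈ Finset.range V.T, W t x) := Finset.sum_le_sum (fun x _ => hx x)
    _ = 2 * ∑ x, √(4 * V.T * ∑ t ∈ Finset.range V.T, W t x) := (Finset.mul_sum _ _ _).symm
    _ ≤ 2 * (2 * V.T * √η * Fintype.card X) := mul_le_mul_of_nonneg_left hfin (by norm_num)
    _ = 4 * V.T * √η * Fintype.card X := by ring

end Pool.Agent.H75.QA
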