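import Pool.Agent.H75.QA.Main
import Pool.Agent.H75.QA.Key
import Pool.Agent.H75.QA.Eab
import Pool.Agent.H75.QA.Hyb
import Pool.Agent.H70.QA.EXT
import Pool.Agent.H70.QA.FLA
import Pool.Agent.H70.QA.ADEEP
import Pool.Agent.H90.QA.CNT
import Pool.Agent.H90.QA.INDS
import Pool.Agent.H90.QA.PUSHS
import Pool.Agent.H34.QA.HGX
import Pool.Agent.H34.QA.NULLU
import Pool.Agent.H34.QA.PARX
import Pool.Agent.H68.AC.Sw
import Pool.Agent.H68.AC.Loc
import Pool.Agent.H68.AC.Enb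
import Pool.Agent.H70.AC.A
import Pool.Agent.H42.AC.SWM
import Pool.Agent.H42.AC.SWS
import Pool.Agent.H90.AC.FUB
import Pool.Agent.H79.AC.ENA

/-!
# Quantum algorithms with access to constant-depth circuits: the main theorem
-/

namespace Pool.Agent.H75.QA

open Finset Filter Pool.Agent.H68.AC

theorem hSWM : T_SWM := Pool.Agent.H42.AC.swm nxs_t nxm_t bpn_t

theorem hSWS : T_SWS := Pool.Agent.H42.AC.sws nxs_t

theorem hSW : T_SW := sw_t hSWS hSWM bpn_t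

theorem hLOCW : T_LOCW := locw_t loc_t

theorem hA : T_A := Pool.Agent.H70.AC.a_t hSW Pool.Agent.H90.AC.FUB inv_t canp_t bpn_t

theorem hADEEP : T_ADEEP := Pool.Agent.H70.QA.adeep_t Pool.Agent.H90.QA.PUSHS hA

theorem hFLA : T_FLA := Pool.Agent.H70.QA.fla_t Pool.Agent.H70.QA.ext_t hLOCW canp_t bps_t bpn_t nxs_t

theorem hEAB : T_EAB := eab_t Pool.Agent.H90.QA.CNT Pool.Agent.H90.QA.INDS

theorem hKEY : T_KEY := key_t hFLA hEAB hLOCW

theorem MAIN : T_MAIN :=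
  main_t hKEY hADEEP Pool.Agent.H34.QA.NULLU hyb_t Pool.Agent.H34.QA.HGX Pool.Agent.H34.QA.PARX
    Pool.Agent.H79.AC.ena enb_t

end Pool.Agent.H75.QA
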