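import Pool.Agent.H75.QA.Targets

/-!
# Quantum algorithms with access to constant-depth circuits: targets for the version uniform in the depth
-/

namespace Pool.Agent.H75.QA

open Finset Filter Pool.Agent.H68.AC

/-- HGXU: hypergraphs with both kinds of expansion, with explicit dependence of the arity. -/
def T_HGXU : Prop := ∀ β : ℝ, 0 < β → β < 1 → ∃ c₀ : ℝ, 0 < c₀ ∧ ∀ (δ : ℝ) (γ r k : ℕ), 0 < δ →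
  γ * δ ≤ 1 / 16 → c₀ ≤ δ * r → c₀ * (1 + γ) ≤ r → 1 ≤ k →
  ∃ e : Fin k → Fin r → Fin k, Expd e ⌊β * k⌋₊ ⌊δ * k⌋₊ ∧ Expg e γ ⌊δ * k⌋₊

/-- PARXU: the parameters, uniformly in the depth `d ≤ √n`. -/
def T_PARXU : Prop := ∀ (C : ℕ) (ε : ℝ), 0 < ε → ε ≤ 1 → ∃ β : ℝ, 0 < β ∧ β < 1 ∧ ∀ c₀ : ℝ, 0 < c₀ →
  ∃ c : ℕ, ∀ᶠ n : ℕ in atTop, ∀ d : ℕ, 1 ≤ d → d ^ 2 ≤ n → ∃ (k ℓ w r γ : ℕ) (δ p q : ℝ),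
    0 < δ ∧ γ * δ ≤ 1 / 16 ∧ c₀ ≤ δ * r ∧ c₀ * (1 + γ) ≤ r ∧ 1 ≤ k ∧ 1 ≤ ℓ ∧ k * ℓ ≤ n ∧
    k * (2 ^ ℓ) ^ (r + 1) ≤ n ^ (c * d) ∧ (r + 1) * ℓ + 1 ≤ c * d * Nat.log 2 n ∧
    1 ≤ ⌊δ * k⌋₊ ∧ 1 ≤ w ∧ 0 < p ∧ p ≤ 1 / 2 ∧ 0 < q ∧ q ≤ 1 / 2 ∧ 64 * w * q ≤ p ∧
    ∀ s : ℕ, (s : ℝ) ≤ 2 ^ ((1 - ε) * n) →
      HNQ n C k (2 ^ ℓ) s w ⌊β * k⌋₊ ⌊δ * k⌋₊ d γ p q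

end Pool.Agent.H75.QA
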