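import Pool.Agent.H75.QA.Main
import Pool.Agent.H75.QA.TargetsU

/-!
# Quantum algorithms with access to constant-depth circuits: observers who know the unsatisfiable formula

The algorithm may depend on the unsatisfiable formula `φ₀`. The statement is uniform in the depth.
-/

namespace Pool.Agent.H75.QA

open Finset Filter Pool.Agent.H68.AC

/-- The core: the constraint satisfaction function. -/
theorem core2 (hKEY : T_KEY) (hADEEP : T_ADEEP) (hHYB : T_HYB)
    (k r s d : ℕ) (A : Type) [DecidableEq A] [Fintype A] (w : ℕ) (e : Fin k → Fin r → Fin k)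
    (p q : ℝ) (β h γ : ℕ) (hE : Expd e β h) (hG : Expg e γ h) (hh : 1 ≤ h) (hw : 1 ≤ w)
    (hp : 0 < p) (hp1 : p ≤ 1 / 2) (hq : 0 < q) (hq1 : q ≤ 1 / 2) (hwq : 64 * w * q ≤ p)
    (hA : 1 ≤ Fintype.card A) (κ : Type) [Fintype κ] (F : κ → Ckt (VV k r A) s d)
    (V : (VV k r A → Bool) → Verifier κ) (T : ℕ) (hT : ∀ y, (V y).T ≤ T)
    (χ : ∀ y, EuclideanSpace ℂ (Fin (V y).dim)) (hχ : ∀ y, ‖χ y‖ = 1)
    (ans : (VV k r A → Bool) → κ → Prop)
    (hans : ∀ y y' i, (F i).val y (F i).out = (F i).val y' (F i).out → (ans y i ↔ ans y' i)) :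
    ∑ y : VV k r A → Bool, wz p y * ((1 - ind (fE e y)) *
      ∑ x : Fin k → A, |(V y).prob (ans (pl (K e x univ) y)) (χ y) - (V y).prob (ans y) (χ y)|) ≤
      (Fintype.card A : ℝ) ^ k * (4 * T * √(eta k (Fintype.card A) s w β h d γ q +
        Fintype.card κ * deepErr k s w)) := by
  classical
  set N : ℝ := (Fintype.card A : ℝ) with hN
  have hN1 : 1 ≤ N := by rw [hN]; exact_mod_cast hA
  have hN0 : 0 < N := by linarith
  have hX : (Fintype.card (Fin k → A) : ℝ) = N ^ k := by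
    rw [hN, Fintype.card_fun, Fintype.card_fin]
    push_cast
    rfl
  have hqw : q * w ≤ 1 := by
    have : (0 : ℝ) ≤ q * w := by positivity
    nlinarith
  set η : ℝ := eta k (Fintype.card A) s w β h d γ q with hη
  set dp : κ → (VV k r A → Bool) → ℝ := fun i y => ∑ x : Fin k → A,
    ∑ S : Fin d → VV k r A → Bool, WS q S * ind (¬ Shal (F i) w e x S y) with hdp
  have hdp0 : ∀ i y, 0 ≤ dp i y := fun i y => Finset.sum_nonneg (fun x _ => Finset.sum_nonneg
    (fun S _ => mul_nonneg (WS_nonneg hq.le (by linarith) S) (ind_nonneg _)))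
  set dd : (VV k r A → Bool) → ℝ := fun y => η + (∑ i, dp i y) / N ^ k with hdd
  have hη0 : 0 ≤ η := by
    rw [hη]
    unfold eta
    rw [← hN]
    have h1 : (1 : ℝ) ≤ (1 + 2 * w / (q ^ d * N ^ γ)) ^ k := by
      apply one_le_pow₀
      have : 0 ≤ 2 * (w : ℝ) / (q ^ d * N ^ γ) := by positivity
      linarith
    have h2 : 0 ≤ 2 ^ k * ((s : ℝ) * ((2 * w / q ^ d) ^ (2 * h) / N ^ (β + 1))) := by positivity
    nlinarith
  have hdd0 : ∀ y, 0 ≤ dd y := fun y => add_nonneg hη0
    (div_nonneg (Finset.sum_nonneg (fun i _ => hdp0 i y)) (by positivity))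
  -- for fixed y
  have hy : ∀ y : VV k r A → Bool,
      ∑ x : Fin k → A, |(V y).prob (ans (pl (K e x univ) y)) (χ y) - (V y).prob (ans y) (χ y)| ≤
      4 * T * √(dd y) * N ^ k := by
    intro y
    have h1 := hHYB κ (Fin k → A) (V y) (ans y) (fun x => ans (pl (K e x univ) y)) (χ y) (dd y) (hχ y)
      (hdd0 y) (fun i => ?_)
    · rw [hX] at h1
      refine h1.trans (mul_le_mul_of_nonneg_right (mul_le_mul_of_nonneg_right ?_ (Real.sqrt_nonneg _))
        (by positivity))
      have h3 : ((V y).T : ℝ) ≤ T := by exact_mod_cast hT y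
      linarith
    · have h2 := hKEY k r s d A (F i) w e q β h γ hE hG hh hw hq (by linarith) hqw hA y (F i).out
      calc ∑ x : Fin k → A, ind (¬ (ans (pl (K e x univ) y) i ↔ ans y i))
          ≤ ∑ x : Fin k → A, ind ((F i).val (pl (K e x univ) y) (F i).out ≠ (F i).val y (F i).out) := by
            refine Finset.sum_le_sum (fun x _ => ind_mono (fun hn heq => hn ?_))
            exact hans _ _ i heq
        _ ≤ N ^ k * η + dp i y := h2
        _ ≤ N ^ k * η + ∑ i, dp i y := by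
            have := Finset.single_le_sum (f := fun i => dp i y) (fun i _ => hdp0 i y) (mem_univ i)
            linarith
        _ = dd y * Fintype.card (Fin k → A) := by
            rw [hX, hdd]
            field_simp
  have hwz : ∀ y : VV k r A → Bool, 0 ≤ wz p y := fun y =>
    Pool.Agent.H90.AC.wz_nonneg hp.le (by linarith) y
  -- the average of dd
  have havg : ∑ y : VV k r A → Bool, wz p y * dd y ≤ η + Fintype.card κ * deepErr k s w := by
    have h1 : ∀ i, ∑ y : VV k r A → Bool, wz p y * dp i y ≤ N ^ k * deepErr k s w := by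
      intro i
      calc ∑ y : VV k r A → Bool, wz p y * dp i y
          = ∑ x : Fin k → A, ∑ S : Fin d → VV k r A → Bool, ∑ y : VV k r A → Bool,
            WS q S * wz p y * ind (¬ Shal (F i) w e x S y) := by
            simp only [hdp, Finset.mul_sum]
            rw [Finset.sum_comm]
            refine Finset.sum_congr rfl (fun x _ => ?_)
            rw [Finset.sum_comm]
            refine Finset.sum_congr rfl (fun S _ => ?_)
            exact Finset.sum_congr rfl (fun y _ => by ring)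
        _ ≤ ∑ _x : Fin k → A, deepErr k s w := Finset.sum_le_sum (fun x _ =>
            hADEEP k r s d A (F i) w e x p q hw hp hp1 hq hq1 hwq)
        _ = N ^ k * deepErr k s w := by
            rw [Finset.sum_const, Finset.card_univ, nsmul_eq_mul, hX]
    calc ∑ y : VV k r A → Bool, wz p y * dd y
        = η * ∑ y : VV k r A → Bool, wz p y +
          (∑ i, ∑ y : VV k r A → Bool, wz p y * dp i y) / N ^ k := by
          rw [Finset.sum_comm, Finset.sum_div, Finset.mul_sum, ← Finset.sum_add_distrib]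
          refine Finset.sum_congr rfl (fun y _ => ?_)
          rw [hdd, ← Finset.mul_sum]
          ring
      _ ≤ η * 1 + (∑ _i : κ, N ^ k * deepErr k s w) / N ^ k := by
          rw [Pool.Agent.H90.AC.sum_wz]
          refine add_le_add le_rfl ?_
          exact div_le_div_of_nonneg_right (Finset.sum_le_sum (fun i _ => h1 i)) (by positivity)
      _ = η + Fintype.card κ * deepErr k s w := by
          rw [Finset.sum_const, Finset.card_univ, nsmul_eq_mul]
          field_simp
  calc ∑ y : VV k r A → Bool, wz p y * ((1 - ind (fE e y)) *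
        ∑ x : Fin k → A, |(V y).prob (ans (pl (K e x univ) y)) (χ y) - (V y).prob (ans y) (χ y)|)
      ≤ ∑ y : VV k r A → Bool, wz p y * (4 * T * √(dd y) * N ^ k) := by
        refine Finset.sum_le_sum (fun y _ => mul_le_mul_of_nonneg_left ?_ (hwz y))
        have h0 : 0 ≤ ∑ x : Fin k → A, |(V y).prob (ans (pl (K e x univ) y)) (χ y) - (V y).prob (ans y) (χ y)| :=
          Finset.sum_nonneg (fun _ _ => abs_nonneg _)
        have h1 := ind_nonneg (fE e y)
        refine le_trans ?_ (hy y)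
        nlinarith
    _ = N ^ k * (4 * T * ∑ y : VV k r A → Bool, wz p y * √(dd y)) := by
        rw [Finset.mul_sum, Finset.mul_sum]
        exact Finset.sum_congr rfl (fun y _ => by ring)
    _ ≤ N ^ k * (4 * T * √(∑ y : VV k r A → Bool, wz p y * dd y)) := by
        refine mul_le_mul_of_nonneg_left (mul_le_mul_of_nonneg_left ?_ (by positivity)) (by positivity)
        exact sum_sqrt_le _ _ hwz (Pool.Agent.H90.AC.sum_wz p) hdd0
    _ ≤ N ^ k * (4 * T * √(η + Fintype.card κ * deepErr k s w)) := by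
        refine mul_le_mul_of_nonneg_left (mul_le_mul_of_nonneg_left ?_ (by positivity)) (by positivity)
        exact Real.sqrt_le_sqrt havg

/-- The assembly for given parameters. -/
theorem assemble2 (hKEY : T_KEY) (hADEEP : T_ADEEP) (hNULL : T_NULLU) (hHYB : T_HYB) (hENB : T_ENB)
    (n m C k r d w W : ℕ) (A : Type) [DecidableEq A] [Fintype A] (e : Fin k → Fin r → Fin k)
    (inc : Fin m × Fin n × Bool → Inp (VV k r A))
    (hinc : ∀ y, (Satisfiable (fun i => (inc i).val y) ↔ fE e y) ∧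
      ∀ j, width (fun i => (inc i).val y) j ≤ W)
    (p q : ℝ) (β h γ : ℕ) (hE : Expd e β h) (hG : Expg e γ h) (hh : 1 ≤ h) (hk : 1 ≤ k) (hw : 1 ≤ w)
    (hp : 0 < p) (hp1 : p ≤ 1 / 2) (hq : 0 < q) (hq1 : q ≤ 1 / 2) (hwq : 64 * w * q ≤ p)
    (hcard1 : 1 ≤ Fintype.card A) (B : ℝ)
    (hHN : ∀ s : ℕ, (s : ℝ) ≤ B → HNQ n C k (Fintype.card A) s w β h d γ p q) :
    ∃ (Ω : Type) (_ : Fintype Ω) (μ : Ω → ℝ) (φ₀ φ₁ : Ω → Fin m × Fin n × Bool → Bool),
    (∀ ω, 0 ≤ μ ω) ∧ ∑ ω, μ ω = 1 ∧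
    (∀ ω, ¬ Satisfiable (φ₀ ω) ∧ Satisfiable (φ₁ ω) ∧
      ∀ j, width (φ₀ ω) j ≤ W ∧ width (φ₁ ω) j ≤ W) ∧
    ∀ (κ : Type) [Fintype κ] (s : ℕ) (F : κ → Circuit (Fin m × Fin n × Bool) s)
      (V : (Fin m × Fin n × Bool → Bool) → Verifier κ) (χ : ∀ φ, EuclideanSpace ℂ (Fin (V φ).dim)),
      Fintype.card κ ≤ 2 ^ (n ^ C) → (s : ℝ) ≤ B → (∀ i, (F i).DepthLE d) →
      (∀ φ, (V φ).T ≤ n ^ C) → (∀ φ, ‖χ φ‖ = 1) →
      ∑ ω, μ ω * |(V (φ₀ ω)).prob (answers F (φ₁ ω)) (χ (φ₀ ω)) -
        (V (φ₀ ω)).prob (answers F (φ₀ ω)) (χ (φ₀ ω))| ≤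
        1 / (n : ℝ) ^ C := by
  classical
  set N : ℝ := (Fintype.card A : ℝ) with hN
  have hN0 : 0 < N := by rw [hN]; exact_mod_cast hcard1
  have hX : (Fintype.card (Fin k → A) : ℝ) = N ^ k := by
    rw [hN, Fintype.card_fun, Fintype.card_fin]
    push_cast
    rfl
  set enc : (VV k r A → Bool) → Fin m × Fin n × Bool → Bool := fun y i => (inc i).val y with henc
  set y' : (VV k r A → Bool) → (VV k r A → Bool) := fun y => if fE e y then (fun _ => false) else y
    with hy'
  have hwz : ∀ y : VV k r A → Bool, 0 ≤ wz p y := fun y =>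
    Pool.Agent.H90.AC.wz_nonneg hp.le (by linarith) y
  have hy1 : ∀ y, ¬ fE e y → y' y = y := fun y h => if_neg h
  have hy2 : ∀ y, fE e y → y' y = fun _ => false := fun y h => if_pos h
  have hunsat : ∀ y, ¬ fE e (y' y) := by
    intro y
    by_cases h : fE e y
    · rw [hy2 y h]
      rintro ⟨x, hx⟩
      exact Bool.false_ne_true (hx ⟨0, hk⟩)
    · rw [hy1 y h]
      exact h
  have hsat : ∀ (y : VV k r A → Bool) (x : Fin k → A), fE e (pl (K e x univ) y) := by
    intro y x
    refine ⟨x, fun j => ?_⟩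
    have : pos e x j ∈ K e x univ := Finset.mem_image_of_mem _ (mem_univ j)
    simp [pl, this]
  refine ⟨(VV k r A → Bool) × (Fin k → A), inferInstance, fun ω => wz p ω.1 / N ^ k,
    fun ω => enc (y' ω.1), fun ω => enc (pl (K e ω.2 univ) (y' ω.1)), ?_, ?_, ?_, ?_⟩
  · intro ω
    exact div_nonneg (hwz _) (by positivity)
  · rw [Fintype.sum_prod_type]
    simp only [Finset.sum_const, Finset.card_univ, nsmul_eq_mul, hX]
    have : ∀ y : VV k r A → Bool, N ^ k * (wz p y / N ^ k) = wz p y := fun y => by field_simp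
    simp only [this]
    exact Pool.Agent.H90.AC.sum_wz p
  · intro ω
    refine ⟨?_, ?_, fun j => ⟨(hinc _).2 j, (hinc _).2 j⟩⟩
    · exact fun hs => hunsat _ ((hinc _).1.1 hs)
    · exact (hinc _).1.2 (hsat _ _)
  · intro κ _ s F V χ hκ hs hd hT hχ
    have hC : ∀ i, ∃ (C' : Ckt (VV k r A) s d) (b : Bool), ∀ y,
        (C'.val y C'.out = b ↔ (F i).Holds (enc y) (F i).out) := fun i =>
      hENB _ (VV k r A) s d (F i) inc (hd i)
    choose C' b hb using hC
    have hcore := core2 hKEY hADEEP hHYB k r s d A w e p q β h γ hE hG hh hw hp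
      hp1 hq hq1 hwq hcard1 κ C' (fun y => V (enc y)) (n ^ C) (fun y => hT _)
      (fun y => χ (enc y)) (fun y => hχ _) (fun y => answers F (enc y))
      (fun y y' i h => by
        show (F i).Holds (enc y) (F i).out ↔ (F i).Holds (enc y') (F i).out
        rw [← hb, ← hb, h])
    have hnull := hNULL k r A e p hp.le (by linarith)
    have hfin := hHN s hs
    unfold HNQ at hfin
    rw [← hN] at hfin
    have hde : 0 ≤ deepErr k s w := by unfold deepErr; positivity
    have hsq : √(eta k (Fintype.card A) s w β h d γ q + Fintype.card κ * deepErr k s w) ≤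
        √(eta k (Fintype.card A) s w β h d γ q + 2 ^ (n ^ C) * deepErr k s w) := by
      apply Real.sqrt_le_sqrt
      refine add_le_add le_rfl (mul_le_mul_of_nonneg_right ?_ hde)
      exact_mod_cast hκ
    calc ∑ ω : (VV k r A → Bool) × (Fin k → A), wz p ω.1 / N ^ k *
          |(V (enc (y' ω.1))).prob (answers F (enc (pl (K e ω.2 univ) (y' ω.1)))) (χ (enc (y' ω.1))) -
            (V (enc (y' ω.1))).prob (answers F (enc (y' ω.1))) (χ (enc (y' ω.1)))|
        = ∑ y : VV k r A → Bool, wz p y * ((∑ x : Fin k → A,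
          |(V (enc (y' y))).prob (answers F (enc (pl (K e x univ) (y' y)))) (χ (enc (y' y))) -
            (V (enc (y' y))).prob (answers F (enc (y' y))) (χ (enc (y' y)))|) / N ^ k) := by
          rw [Fintype.sum_prod_type]
          refine Finset.sum_congr rfl (fun y _ => ?_)
          rw [Finset.sum_div, Finset.mul_sum]
          exact Finset.sum_congr rfl (fun x _ => by ring)
      _ ≤ ∑ y : VV k r A → Bool, (wz p y * ind (fE e y) + wz p y * ((1 - ind (fE e y)) *
          ∑ x : Fin k → A, |(V (enc y)).prob (answers F (enc (pl (K e x univ) y))) (χ (enc y)) -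
            (V (enc y)).prob (answers F (enc y)) (χ (enc y))|) / N ^ k) := by
          refine Finset.sum_le_sum (fun y _ => ?_)
          by_cases h : fE e y
          · rw [ind_true h]
            have h1 : (∑ x : Fin k → A,
                |(V (enc (y' y))).prob (answers F (enc (pl (K e x univ) (y' y)))) (χ (enc (y' y))) -
                (V (enc (y' y))).prob (answers F (enc (y' y))) (χ (enc (y' y)))|) / N ^ k ≤ 1 := by
              rw [div_le_one (by positivity), ← hX, ← Finset.card_univ, ← nsmul_one,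
                ← Finset.sum_const]
              exact Finset.sum_le_sum (fun x _ => V_prob_diff (V (enc (y' y))) _ _ _ (hχ _))
            have h2 := mul_le_mul_of_nonneg_left h1 (hwz y)
            simp only [sub_self, zero_mul, mul_zero, zero_div, add_zero]
            exact h2
          · rw [ind_false h, hy1 y h]
            refine le_of_eq ?_
            ring
      _ = ∑ y : VV k r A → Bool, wz p y * ind (fE e y) + (∑ y : VV k r A → Bool, wz p y *
          ((1 - ind (fE e y)) * ∑ x : Fin k → A, |(V (enc y)).prob (answers F (enc (pl (K e x univ) y))) (χ (enc y)) -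
            (V (enc y)).prob (answers F (enc y)) (χ (enc y))|)) / N ^ k := by
          rw [Finset.sum_add_distrib, Finset.sum_div]
      _ ≤ (N * p) ^ k + (N ^ k * (4 * ((n ^ C : ℕ) : ℝ) * √(eta k (Fintype.card A) s w β h d γ q +
          Fintype.card κ * deepErr k s w))) / N ^ k :=
          add_le_add hnull (div_le_div_of_nonneg_right hcore (pow_nonneg hN0.le k))
      _ = (N * p) ^ k + 4 * ((n ^ C : ℕ) : ℝ) * √(eta k (Fintype.card A) s w β h d γ q +
          Fintype.card κ * deepErr k s w) := by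
          field_simp
      _ ≤ (N * p) ^ k + 4 * (n : ℝ) ^ C * √(eta k (Fintype.card A) s w β h d γ q +
          2 ^ (n ^ C) * deepErr k s w) := by
          refine add_le_add le_rfl ?_
          refine mul_le_mul ?_ hsq (Real.sqrt_nonneg _) (by positivity)
          push_cast
          exact le_rfl
      _ ≤ 1 / (n : ℝ) ^ C := hfin

/-- MAINO: average-case hardness, uniformly in the depth, for observers who know `φ₀`. -/
def T_MAINO : Prop := ∀ (C : ℕ) (ε : ℝ), 0 < ε → ∃ c : ℕ, ∀ᶠ n : ℕ in atTop, ∀ d : ℕ, 1 ≤ d →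
  d ^ 2 ≤ n → ∀ m : ℕ, n ^ (c * d) ≤ m →
  ∃ (Ω : Type) (_ : Fintype Ω) (μ : Ω → ℝ) (φ₀ φ₁ : Ω → Fin m × Fin n × Bool → Bool),
    (∀ ω, 0 ≤ μ ω) ∧ ∑ ω, μ ω = 1 ∧
    (∀ ω, ¬ Satisfiable (φ₀ ω) ∧ Satisfiable (φ₁ ω) ∧
      ∀ j, width (φ₀ ω) j ≤ c * d * Nat.log 2 n ∧ width (φ₁ ω) j ≤ c * d * Nat.log 2 n) ∧
    ∀ (κ : Type) [Fintype κ] (s : ℕ) (F : κ → Circuit (Fin m × Fin n × Bool) s)
      (V : (Fin m × Fin n × Bool → Bool) → Verifier κ) (χ : ∀ φ, EuclideanSpace ℂ (Fin (V φ).dim)),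
      Fintype.card κ ≤ 2 ^ (n ^ C) → (s : ℝ) ≤ 2 ^ ((1 - ε) * n) → (∀ i, (F i).DepthLE d) →
      (∀ φ, (V φ).T ≤ n ^ C) → (∀ φ, ‖χ φ‖ = 1) →
      ∑ ω, μ ω * |(V (φ₀ ω)).prob (answers F (φ₁ ω)) (χ (φ₀ ω)) -
        (V (φ₀ ω)).prob (answers F (φ₀ ω)) (χ (φ₀ ω))| ≤
        1 / (n : ℝ) ^ C

theorem maino_t (hKEY : T_KEY) (hADEEP : T_ADEEP) (hNULL : T_NULLU) (hHYB : T_HYB)
    (hHGX : T_HGXU) (hPARX : T_PARXU) (hENA : T_ENA) (hENB : T_ENB) : T_MAINO := by
  intro C ε hε
  obtain ⟨β, hβ, hβ1, hP⟩ := hPARX C (min ε 1) (lt_min hε one_pos) (min_le_right _ _)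
  obtain ⟨c₀, hc₀, hH⟩ := hHGX β hβ hβ1
  obtain ⟨c, hc⟩ := hP c₀ hc₀
  refine ⟨c, ?_⟩
  filter_upwards [hc] with n hn d hd1 hdn m hm
  obtain ⟨k, ℓ, w, r, γ, δ, p, q, hδ, hγδ, hδr, hγr, hk, hℓ, hkl, hkn, hwid, hδk, hw, hp, hp1, hq, hq1,
    hwq, hHN⟩ := hn d hd1 hdn
  obtain ⟨e, hE, hG⟩ := hH δ γ r k hδ hγδ hδr hγr hk
  obtain ⟨inc, hinc⟩ := hENA k r ℓ n m e hℓ hk hkl (hkn.trans hm)
  have hcard : Fintype.card (Fin ℓ → Bool) = 2 ^ ℓ := by simp
  have hcard1 : 1 ≤ Fintype.card (Fin ℓ → Bool) := by rw [hcard]; exact Nat.one_le_two_pow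
  refine assemble2 hKEY hADEEP hNULL hHYB hENB n m C k r d w _ (Fin ℓ → Bool) e inc
    (fun y => ⟨(hinc y).1, fun j => ((hinc y).2 j).trans hwid⟩) p q _ _ γ hE hG hδk hk hw hp hp1 hq hq1
    hwq hcard1 ((2 : ℝ) ^ ((1 - ε) * n)) (fun s hs => ?_)
  rw [hcard]
  refine hHN s (hs.trans ?_)
  apply Real.rpow_le_rpow_of_exponent_le (by norm_num)
  have h1 : (0 : ℝ) ≤ n := Nat.cast_nonneg n
  have h2 := min_le_left ε 1
  nlinarith

end Pool.Agent.H75.QA
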