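import Pool.Agent.H75.QA.Final
import Pool.Agent.H75.QA.Obs
import Pool.Agent.H33.QA.HGXU
import Pool.Agent.H33.QA.PARXU

/-!
# Quantum algorithms with access to constant-depth circuits: the main theorem, uniformly in the depth
-/

namespace Pool.Agent.H75.QA

open Finset Filter Pool.Agent.H68.AC

theorem MAINO : T_MAINO :=
  maino_t hKEY hADEEP Pool.Agent.H34.QA.NULLU hyb_t Pool.Agent.H33.QA.HGXU Pool.Agent.H33.QA.PARXU
    Pool.Agent.H79.AC.ena enb_t

end Pool.Agent.H75.QA
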