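import Pool.Agent.H75.QA.Main
import Pool.Agent.H75.QA.TargetsU

/-!
# Quantum algorithms with access to constant-depth circuits: the version uniform in the depth
-/

namespace Pool.Agent.H75.QA

open Finset Filter Pool.Agent.H68.AC

/-- MAINQU: average-case hardness, uniformly in the depth. -/
def T_MAINQU : Prop := ∀ (C : ℕ) (ε : ℝ), 0 < ε → ∃ c : ℕ, ∀ᶠ n : ℕ in atTop, ∀ d : ℕ, 1 ≤ d →
  d ^ 2 ≤ n → ∀ m : ℕ, n ^ (c * d) ≤ m →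
  ∃ (Ω : Type) (_ : Fintype Ω) (μ : Ω → ℝ) (φ₀ φ₁ : Ω → Fin m × Fin n × Bool → Bool),
    (∀ ω, 0 ≤ μ ω) ∧ ∑ ω, μ ω = 1 ∧
    (∀ ω, ¬ Satisfiable (φ₀ ω) ∧ Satisfiable (φ₁ ω) ∧
      ∀ j, width (φ₀ ω) j ≤ c * d * Nat.log 2 n ∧ width (φ₁ ω) j ≤ c * d * Nat.log 2 n) ∧
    ∀ (κ : Type) [Fintype κ] (s : ℕ) (F : κ → Circuit (Fin m × Fin n × Bool) s) (V : Verifier κ)
      (χ : (Fin m × Fin n × Bool → Bool) → EuclideanSpace ℂ (Fin V.dim)),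
      Fintype.card κ ≤ 2 ^ (n ^ C) → (s : ℝ) ≤ 2 ^ ((1 - ε) * n) → (∀ i, (F i).DepthLE d) →
      V.T ≤ n ^ C → (∀ φ, ‖χ φ‖ = 1) →
      ∑ ω, μ ω * |V.prob (answers F (φ₁ ω)) (χ (φ₀ ω)) - V.prob (answers F (φ₀ ω)) (χ (φ₀ ω))| ≤
        1 / (n : ℝ) ^ C

theorem mainqu_t (hKEY : T_KEY) (hADEEP : T_ADEEP) (hNULL : T_NULLU) (hHYB : T_HYB)
    (hHGX : T_HGXU) (hPARX : T_PARXU) (hENA : T_ENA) (hENB : T_ENB) : T_MAINQU := by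
  intro C ε hε
  obtain ⟨β, hβ, hβ1, hP⟩ := hPARX C (min ε 1) (lt_min hε one_pos) (min_le_right _ _)
  obtain ⟨c₀, hc₀, hH⟩ := hHGX β hβ hβ1
  obtain ⟨c, hc⟩ := hP c₀ hc₀
  refine ⟨c, ?_⟩
  filter_upwards [hc] with n hn d hd1 hdn m hm
  obtain ⟨k, ℓ, w, r, γ, δ, p, q, hδ, hγδ, hδr, hγr, hk, hℓ, hkl, hkn, hwid, hδk, hw, hp, hp1, hq, hq1,
    hwq, hHN⟩ := hn d hd1 hdn
  obtain ⟨e, hE, hG⟩ := hH δ γ r k hδ hγδ hδr hγr hk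
  obtain ⟨inc, hinc⟩ := hENA k r ℓ n m e hℓ hk hkl (hkn.trans hm)
  have hcard : Fintype.card (Fin ℓ → Bool) = 2 ^ ℓ := by simp
  have hcard1 : 1 ≤ Fintype.card (Fin ℓ → Bool) := by rw [hcard]; exact Nat.one_le_two_pow
  refine assemble hKEY hADEEP hNULL hHYB hENB n m C k r d w _ (Fin ℓ → Bool) e inc
    (fun y => ⟨(hinc y).1, fun j => ((hinc y).2 j).trans hwid⟩) p q _ _ γ hE hG hδk hk hw hp hp1 hq hq1
    hwq hcard1 ((2 : ℝ) ^ ((1 - ε) * n)) (fun s hs => ?_)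
  rw [hcard]
  refine hHN s (hs.trans ?_)
  apply Real.rpow_le_rpow_of_exponent_le (by norm_num)
  have h1 : (0 : ℝ) ≤ n := Nat.cast_nonneg n
  have h2 := min_le_left ε 1
  nlinarith

end Pool.Agent.H75.QA
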