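import Pool.Agent.H68.AC.Stmt

/-!
# Quantum algorithms with access to constant-depth circuits: the definitions used in the statement

The circuits (`Circuit`, `Circuit.Holds`, `Circuit.DepthLE`) and CNFs (`Satisfiable`, `width`) are those of
`Pool/Agent/H68/AC/Stmt.lean`.
-/

namespace Pool.Agent.H75.QA

open Classical in
/-- The phase of the basis state with query `o` when the answers are `a`: `-1` if the answer to the query is
true, otherwise `1` (no query: `1`). -/
noncomputable def sgn {κ : Type} (a : κ → Prop) (o : Option κ) : ℂ :=
  if ∃ i, o = some i ∧ a i then -1 else 1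

/-- A quantum algorithm which asks queries `i : κ` in superposition. The finite computational basis is
`Fin dim`; the basis state `b` asks the query `query b` (`none` = no query). The algorithm applies `U 0` to
the initial state and then `T` times a query followed by `U t`, `t = 1, …, T`; finally it measures in the
computational basis and accepts iff the outcome lies in `acc`. -/
structure Verifier (κ : Type) where
  /-- the dimension of the state space -/
  dim : ℕ
  /-- the query asked by each basis state -/
  query : Fin dim → Option κ
  /-- the number of queries -/
  T : ℕ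
  /-- the unitaries between the queries -/
  U : ℕ → (EuclideanSpace ℂ (Fin dim) ≃ₗᵢ[ℂ] EuclideanSpace ℂ (Fin dim))
  /-- the accepting basis states -/
  acc : Finset (Fin dim)

namespace Verifier

variable {κ : Type} (V : Verifier κ)

/-- The query operator for the answers `a`. -/
noncomputable def oracle (a : κ → Prop) (ψ : EuclideanSpace ℂ (Fin V.dim)) :
    EuclideanSpace ℂ (Fin V.dim) :=
  WithLp.toLp 2 fun b => sgn a (V.query b) * ψ b

/-- The state after `t` queries for the answers `a` and the initial state `ψ`. -/
noncomputable def state (a : κ → Prop) (ψ : EuclideanSpace ℂ (Fin V.dim)) :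
    ℕ → EuclideanSpace ℂ (Fin V.dim)
  | 0 => V.U 0 ψ
  | t + 1 => V.U (t + 1) (V.oracle a (state a ψ t))

/-- The acceptance probability for the answers `a` and the initial state `ψ`. -/
noncomputable def prob (a : κ → Prop) (ψ : EuclideanSpace ℂ (Fin V.dim)) : ℝ :=
  ∑ b ∈ V.acc, ‖V.state a ψ V.T b‖ ^ 2

end Verifier

open Pool.Agent.H68.AC

/-- The answers of the circuits `F i` at the input `φ`. -/
def answers {I κ : Type} {s : ℕ} (F : κ → Circuit I s) (φ : I → Bool) : κ → Prop :=
  fun i => (F i).Holds φ (F i).out

end Pool.Agent.H75.QA
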