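import Pool.Agent.H68.AC.Targets
import Pool.Agent.H75.QA.Stmt

/-!
# Quantum algorithms with access to constant-depth circuits: module targets
-/

namespace Pool.Agent.H75.QA

open Finset Filter Pool.Agent.H68.AC

/-! ## Auxiliary definitions -/

/-- The rounds of restrictions with star pattern `S` (`S i v = true`: the variable `v` stays free in round
`i`) which reveal the values of `y`. -/
def Rof {V : Type} {d : ℕ} (S : Fin d → V → Bool) (y : V → Bool) : Fin d → PA V :=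
  fun i v => if S i v = true then none else some (y v)

/-- The weight of a star pattern. -/
noncomputable def WS {V : Type} [Fintype V] {d : ℕ} (q : ℝ) (S : Fin d → V → Bool) : ℝ := ∏ i, wz q (S i)

/-- The input `y` with the planted variables `P` set to true. -/
def pl {V : Type} [DecidableEq V] (P : Finset V) (y : V → Bool) : V → Bool :=
  fun v => if v ∈ P then true else y v

/-- The answered queries `ψ` of variables outside `Q` agree with `y`, or the variable stays free in round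
`l + 1`. -/
def Alive {V : Type} {d : ℕ} (Q : Finset V) (S : Fin d → V → Bool) (y : V → Bool) (l : ℕ)
    (ψ : List (V × Bool)) : Prop :=
  ∀ c ∈ ψ, c.1 ∉ Q → (y c.1 = c.2 ∨ ∃ h : l + 1 < d, S ⟨l + 1, h⟩ c.1 = true)

/-- In the world with planted set `Q` the tree of gate `g` is shallow and some alive path of it queries all
variables in `P`. -/
def EA {V : Type} [DecidableEq V] [Fintype V] {s d : ℕ} (C : Ckt V s d) (w : ℕ) (P Q : Finset V)
    (S : Fin d → V → Bool) (y : V → Bool) (g : Fin s) : Prop :=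
  (C.T Q (Rof S y) g).depth ≤ w ∧ ∃ ψ c, IsPath (C.T Q (Rof S y) g) ψ c ∧ Alive P S y (C.lev g) ψ ∧
    ∀ v ∈ P, v ∈ ψ.map Prod.fst

/-- All trees in the worlds of the planted solution `x` are shallow. -/
def Shal {k r s d : ℕ} {A : Type} [DecidableEq A] [Fintype A] (C : Ckt (VV k r A) s d) (w : ℕ)
    (e : Fin k → Fin r → Fin k) (x : Fin k → A) (S : Fin d → VV k r A → Bool) (y : VV k r A → Bool) :
    Prop :=
  ∀ (H : Finset (Fin k)) (g : Fin s), (C.T (K e x H) (Rof S y) g).depth ≤ w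

/-- Small sets of constraints cover many vertices. -/
def Expg {k r : ℕ} (e : Fin k → Fin r → Fin k) (γ h : ℕ) : Prop :=
  ∀ H : Finset (Fin k), H.card ≤ h → γ * H.card ≤ (VS e H).card

/-- The main error term. -/
noncomputable def eta (k N s w β h d γ : ℕ) (q : ℝ) : ℝ :=
  8 * (2 ^ k * (s * ((2 * w / q ^ d) ^ (2 * h) / (N : ℝ) ^ (β + 1))) +
    ((1 + 2 * w / (q ^ d * (N : ℝ) ^ γ)) ^ k - 1))

/-- The error term for deep trees. -/
noncomputable def deepErr (k s w : ℕ) : ℝ := 2 ^ k * (s * (3 / 2 * 16 ^ k / 2 ^ (w + 1)))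

/-- The numerical condition. -/
def HNQ (n C k N s w β h d γ : ℕ) (p q : ℝ) : Prop :=
  (N * p) ^ k + 4 * (n : ℝ) ^ C * √(eta k N s w β h d γ q + 2 ^ (n ^ C) * deepErr k s w) ≤
    1 / (n : ℝ) ^ C

/-! ## Trees -/

/-- EXT: a block path extends to a full path whose further queries are answered by `y`. -/
def T_EXT : Prop := ∀ (V : Type) [DecidableEq V] [Fintype V] (cs : List (Bool × DT V)) (n : ℕ)
  (κ : PA V) (π : List (List (V × Bool))) (y : V → Bool), nfree κ < n → IsBP cs κ π →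
  ∃ ψ c, IsPath (can cs n κ) (π.flatten ++ ψ) c ∧ ∀ u ∈ ψ, y u.1 = u.2

/-- CNT: the weighted number of sets `P` that are queried by a path which is alive outside `P`. -/
def T_CNT : Prop := ∀ (V : Type) [DecidableEq V] [Fintype V] (t : DT V) (w : ℕ) (y : V → Bool)
  (q X : ℝ), t.depth ≤ w → (∀ ψ c, IsPath t ψ c → (ψ.map Prod.fst).Nodup) → 0 ≤ q → q ≤ 1 → 0 ≤ X →
  ∑ z : V → Bool, wz q z * ∑ P : Finset V, X ^ P.card * ind (∃ ψ c, IsPath t ψ c ∧
    (∀ u ∈ ψ, u.1 ∉ P → (y u.1 = u.2 ∨ z u.1 = true)) ∧ ∀ v ∈ P, v ∈ ψ.map Prod.fst) ≤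
    (1 + q + 2 * X) ^ w

/-! ## Weights -/

/-- PUSHS: random rounds and (star patterns, bits) give the same merged rounds. -/
def T_PUSHS : Prop := ∀ (V : Type) [DecidableEq V] [Fintype V] (d : ℕ) (q p : ℝ)
  (G : (Fin d → PA V) → ℝ), (∀ R R', (∀ j, fd R j = fd R' j) → G R = G R') →
  ∑ S : Fin d → V → Bool, ∑ y : V → Bool, WS q S * wz p y * G (Rof S y) =
    ∑ R : Fin d → PA V, Wt q p R * G R

/-- INDS: if `F` does not depend on the stars in `P`, one may condition on all of them being stars. -/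
def T_INDS : Prop := ∀ (V : Type) [DecidableEq V] [Fintype V] (d : ℕ) (q : ℝ) (P : Finset V)
  (F : (Fin d → V → Bool) → ℝ), (∀ S S', (∀ i v, v ∉ P → S i v = S' i v) → F S = F S') →
  q ^ (d * P.card) * ∑ S : Fin d → V → Bool, WS q S * F S =
    ∑ S : Fin d → V → Bool, WS q S * (ind (∀ i, ∀ v ∈ P, S i v = true) * F S)

/-- ADEEP: the trees are shallow with high probability. -/
def T_ADEEP : Prop := ∀ (k r s d : ℕ) (A : Type) [DecidableEq A] [Fintype A]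
  (C : Ckt (VV k r A) s d) (w : ℕ) (e : Fin k → Fin r → Fin k) (x : Fin k → A) (p q : ℝ), 1 ≤ w →
  0 < p → p ≤ 1 / 2 → 0 < q → q ≤ 1 / 2 → 64 * w * q ≤ p →
  ∑ S : Fin d → VV k r A → Bool, ∑ y : VV k r A → Bool, WS q S * wz p y *
    ind (¬ Shal C w e x S y) ≤ deepErr k s w

/-! ## The first-large argument for a fixed input -/

/-- FLA: the first-large argument for alive paths. -/
def T_FLA : Prop := ∀ (k r s d : ℕ) (A : Type) [DecidableEq A] [Fintype A] (C : Ckt (VV k r A) s d)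
  (w : ℕ) (e : Fin k → Fin r → Fin k) (x : Fin k → A) (S : Fin d → VV k r A → Bool)
  (y : VV k r A → Bool) (β h : ℕ), Expd e β h → 1 ≤ h → Shal C w e x S y →
  (∀ H : Finset (Fin k), β < (VS e H).card → H.card ≤ 2 * h → ∀ g,
    ¬ EA C w (K e x H) (K e x H) S y g) →
  ∀ g ψ c, IsPath (C.T (K e x univ) (Rof S y) g) ψ c → Alive (K e x univ) S y (C.lev g) ψ →
    (VS e (univ.filter (fun j => pos e x j ∈ ψ.map Prod.fst))).card ≤ β

/-- EAB: for a fixed input `y`, the probability over the planted solution and the stars that an alive path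
queries all planted positions of the constraints in `H`. -/
def T_EAB : Prop := ∀ (k r s d : ℕ) (A : Type) [DecidableEq A] [Fintype A] (C : Ckt (VV k r A) s d)
  (w : ℕ) (e : Fin k → Fin r → Fin k) (H : Finset (Fin k)) (q : ℝ) (y : VV k r A → Bool) (g : Fin s),
  1 ≤ w → 0 < q → q ≤ 1 → q * w ≤ 1 →
  q ^ (d * H.card) * ∑ x : Fin k → A, ∑ S : Fin d → VV k r A → Bool,
    WS q S * ind (EA C w (K e x H) (K e x H) S y g) ≤
    8 * (2 * w) ^ H.card * (Fintype.card A : ℝ) ^ (k - (VS e H).card)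

/-- KEY: for every input `y` planting a random solution rarely changes the value of a gate, unless the
trees are deep. -/
def T_KEY : Prop := ∀ (k r s d : ℕ) (A : Type) [DecidableEq A] [Fintype A] (C : Ckt (VV k r A) s d)
  (w : ℕ) (e : Fin k → Fin r → Fin k) (q : ℝ) (β h γ : ℕ), Expd e β h → Expg e γ h → 1 ≤ h → 1 ≤ w →
  0 < q → q ≤ 1 → q * w ≤ 1 → 1 ≤ Fintype.card A → ∀ (y : VV k r A → Bool) (g : Fin s),
  ∑ x : Fin k → A, ind (C.val (pl (K e x univ) y) g ≠ C.val y g) ≤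
    (Fintype.card A : ℝ) ^ k * eta k (Fintype.card A) s w β h d γ q +
      ∑ x : Fin k → A, ∑ S : Fin d → VV k r A → Bool, WS q S * ind (¬ Shal C w e x S y)

/-! ## Hypergraph, null instances, parameters, quantum algorithms -/

/-- HGX: hypergraphs with both kinds of expansion exist. -/
def T_HGX : Prop := ∀ (β δ : ℝ) (γ : ℕ), 0 < β → β < 1 → 0 < δ → ∃ (δ' : ℝ) (r : ℕ), 0 < δ' ∧ δ' ≤ δ ∧
  ∀ k : ℕ, 1 ≤ k → ∃ e : Fin k → Fin r → Fin k, Expd e ⌊β * k⌋₊ ⌊δ' * k⌋₊ ∧ Expg e γ ⌊δ' * k⌋₊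

/-- NULLU: random inputs are usually unsatisfiable. -/
def T_NULLU : Prop := ∀ (k r : ℕ) (A : Type) [DecidableEq A] [Fintype A] (e : Fin k → Fin r → Fin k)
  (p : ℝ), 0 ≤ p → p ≤ 1 → ∑ y : VV k r A → Bool, wz p y * ind (fE e y) ≤ (Fintype.card A * p) ^ k

/-- PARX: the parameters. -/
def T_PARX : Prop := ∀ (d C : ℕ) (ε : ℝ), 0 < ε → ε ≤ 1 → ∃ (β δ : ℝ) (γ : ℕ), 0 < β ∧ β < 1 ∧
  0 < δ ∧ ∀ (δ' : ℝ) (r : ℕ), 0 < δ' → δ' ≤ δ → ∃ c : ℕ, ∀ᶠ n : ℕ in atTop,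
    ∃ (k ℓ w : ℕ) (p q : ℝ), 1 ≤ k ∧ 1 ≤ ℓ ∧ k * ℓ ≤ n ∧ k * (2 ^ ℓ) ^ (r + 1) ≤ n ^ c ∧
    (r + 1) * ℓ + 1 ≤ c * Nat.log 2 n ∧ 1 ≤ ⌊δ' * k⌋₊ ∧ 1 ≤ w ∧
    0 < p ∧ p ≤ 1 / 2 ∧ 0 < q ∧ q ≤ 1 / 2 ∧ 64 * w * q ≤ p ∧
    ∀ s : ℕ, (s : ℝ) ≤ 2 ^ ((1 - ε) * n) →
      HNQ n C k (2 ^ ℓ) s w ⌊β * k⌋₊ ⌊δ' * k⌋₊ d γ p q

/-- HYB: the hybrid argument. If for every query the answer differs from the reference answer only for
few `x`, then the acceptance probabilities are close on average over `x`. -/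
def T_HYB : Prop := ∀ (κ X : Type) [Fintype κ] [Fintype X] (V : Verifier κ) (a₀ : κ → Prop)
  (a₁ : X → κ → Prop) (ψ : EuclideanSpace ℂ (Fin V.dim)) (η : ℝ), ‖ψ‖ = 1 → 0 ≤ η →
  (∀ i, ∑ x, ind (¬ (a₁ x i ↔ a₀ i)) ≤ η * Fintype.card X) →
  ∑ x, |V.prob (a₁ x) ψ - V.prob a₀ ψ| ≤ 4 * V.T * √η * Fintype.card X

/-- MAIN: average-case hardness of satisfiability for quantum algorithms with access to constant-depth
circuits. -/
def T_MAIN : Prop := ∀ (d C : ℕ) (ε : ℝ), 0 < ε → ∃ c : ℕ, ∀ᶠ n : ℕ in atTop, ∀ m : ℕ, n ^ c ≤ m →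
  ∃ (Ω : Type) (_ : Fintype Ω) (μ : Ω → ℝ) (φ₀ φ₁ : Ω → Fin m × Fin n × Bool → Bool),
    (∀ ω, 0 ≤ μ ω) ∧ ∑ ω, μ ω = 1 ∧
    (∀ ω, ¬ Satisfiable (φ₀ ω) ∧ Satisfiable (φ₁ ω) ∧
      ∀ j, width (φ₀ ω) j ≤ c * Nat.log 2 n ∧ width (φ₁ ω) j ≤ c * Nat.log 2 n) ∧
    ∀ (κ : Type) [Fintype κ] (s : ℕ) (F : κ → Circuit (Fin m × Fin n × Bool) s) (V : Verifier κ)
      (χ : (Fin m × Fin n × Bool → Bool) → EuclideanSpace ℂ (Fin V.dim)),
      Fintype.card κ ≤ 2 ^ (n ^ C) → (s : ℝ) ≤ 2 ^ ((1 - ε) * n) → (∀ i, (F i).DepthLE d) →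
      V.T ≤ n ^ C → (∀ φ, ‖χ φ‖ = 1) →
      ∑ ω, μ ω * |V.prob (answers F (φ₁ ω)) (χ (φ₀ ω)) - V.prob (answers F (φ₀ ω)) (χ (φ₀ ω))| ≤
        1 / (n : ℝ) ^ C

end Pool.Agent.H75.QA
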