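import Pool.Agent.H75.QA.Targets
import Pool.Agent.H68.AC.BCx
import Pool.Agent.H90.AC.W

/-!
# Quantum algorithms with access to constant-depth circuits: weights of star patterns
-/

namespace Pool.Agent.H75.QA

open Finset Pool.Agent.H68.AC

theorem WS_nonneg {V : Type} [Fintype V] {d : ℕ} {q : ℝ} (hq : 0 ≤ q) (hq1 : q ≤ 1)
    (S : Fin d → V → Bool) : 0 ≤ WS q S :=
  prod_nonneg fun _ _ => Pool.Agent.H90.AC.wz_nonneg hq hq1 _

theorem sum_WS {V : Type} [Fintype V] [DecidableEq V] {d : ℕ} (q : ℝ) :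
    ∑ S : Fin d → V → Bool, WS q S = 1 := by
  have := Pool.Agent.H90.AC.sum_fun_prod (ι := Fin d) (fun _ (z : V → Bool) => wz q z)
  simp only [Pool.Agent.H90.AC.sum_wz, prod_const_one] at this
  exact this

/-- Resampling one round. -/
theorem resampleS {V : Type} [Fintype V] [DecidableEq V] {d : ℕ} (q : ℝ) (j : Fin d)
    (F : (Fin d → V → Bool) → ℝ) :
    ∑ S, WS q S * F S = ∑ S, WS q S * ∑ z : V → Bool, wz q z * F (Function.update S j z) := by
  have h1 : ∑ x : (Fin d → V → Bool) × (V → Bool), WS q x.1 * (wz q x.2 * F x.1) =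
      ∑ x : (Fin d → V → Bool) × (V → Bool), WS q x.1 * (wz q x.2 * F (Function.update x.1 j x.2)) := by
    refine Finset.sum_bij' (fun x _ => (Function.update x.1 j x.2, x.1 j))
      (fun x _ => (Function.update x.1 j x.2, x.1 j)) (fun _ _ => mem_univ _) (fun _ _ => mem_univ _)
      ?_ ?_ ?_
    · rintro ⟨R, Q⟩ _
      simp
    · rintro ⟨R, Q⟩ _
      simp
    · rintro ⟨R, Q⟩ _
      have h2 : WS q R * wz q Q = WS q (Function.update R j Q) * wz q (R j) := by
        have e1 : WS q R = wz q (R j) * ∏ i ∈ univ.erase j, wz q (R i) :=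
          (mul_prod_erase univ (fun i => wz q (R i)) (mem_univ j)).symm
        have e2 : WS q (Function.update R j Q) = wz q Q * ∏ i ∈ univ.erase j, wz q (R i) := by
          rw [WS, ← mul_prod_erase univ _ (mem_univ j)]
          congr 1
          · simp
          · refine prod_congr rfl fun i hi => ?_
            rw [Function.update_of_ne (ne_of_mem_erase hi)]
        rw [e1, e2]; ring
      simp only [Function.update_idem, Function.update_eq_self]
      rw [← mul_assoc, ← mul_assoc, h2]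
  rw [Fintype.sum_prod_type, Fintype.sum_prod_type] at h1
  calc ∑ R, WS q R * F R = ∑ R, ∑ Q : V → Bool, WS q R * (wz q Q * F R) := by
        refine sum_congr rfl fun R _ => ?_
        rw [← mul_sum, ← sum_mul, Pool.Agent.H90.AC.sum_wz, one_mul]
    _ = _ := h1
    _ = _ := by
        refine sum_congr rfl fun R _ => ?_
        rw [mul_sum]

/-- If all resampled values are at most `B` so is the average. -/
theorem sum_WS_le {V : Type} [Fintype V] [DecidableEq V] {d : ℕ} {q : ℝ} (hq : 0 ≤ q) (hq1 : q ≤ 1)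
    (F : (Fin d → V → Bool) → ℝ) (B : ℝ) (h : ∀ S, F S ≤ B) : ∑ S, WS q S * F S ≤ B := by
  calc ∑ S, WS q S * F S ≤ ∑ S, WS q S * B :=
        Finset.sum_le_sum (fun S _ => mul_le_mul_of_nonneg_left (h S) (WS_nonneg hq hq1 S))
    _ = B := by rw [← Finset.sum_mul, sum_WS, one_mul]

section

variable {V : Type} [DecidableEq V] [Fintype V] {s d : ℕ}

theorem T_congr (C : Ckt V s d) (P : Finset V) (R R' : Fin d → PA V) (g : Fin s)
    (h : ∀ j v, v ∉ P → R j v = R' j v) : C.T P R g = C.T P R' g := by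
  obtain ⟨h1, _, _⟩ := inv_t V s d C P R R'
  rw [C.T_eq, C.T_eq, (h1 h).1, (h1 h).2]

theorem T_empty (C : Ckt V s d) (P : Finset V) (R : Fin d → PA V) (g : Fin s)
    (h : ∀ j, ∀ v ∈ P, R j v = none) : C.T P R g = C.T ∅ R g := by
  obtain ⟨_, h1, _⟩ := inv_t V s d C P R R
  rw [C.T_eq, C.T_eq, (h1 h).1, (h1 h).2]

theorem T_low (C : Ckt V s d) (P : Finset V) (R R' : Fin d → PA V) (g : Fin s)
    (h : ∀ i : Fin d, i.1 < C.lev g + 1 → R i = R' i) : C.T P R g = C.T P R' g := by
  obtain ⟨_, _, h1⟩ := inv_t V s d C P R R'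
  rw [C.T_eq, C.T_eq, h1 g (fun i hi => h i (by omega))]
  congr 1
  funext v
  simp only [rho, mask]
  rw [fd_congr R R' _ v (fun i hi => by rw [h i hi])]

theorem T_nodup (C : Ckt V s d) (P : Finset V) (R : Fin d → PA V) (g : Fin s) (ψ : List (V × Bool))
    (c : Bool) (h : IsPath (C.T P R g) ψ c) : (ψ.map Prod.fst).Nodup := by
  rw [C.T_eq] at h
  obtain ⟨π, rfl, h1, _⟩ := canp_t V _ _ _ ψ c (nfree_le _) h
  exact (bpn_t V _ _ π h1).1

end

end Pool.Agent.H75.QA
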